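import Pool.Agent.N587.UG.Defs

set_option autoImplicit false
set_option linter.unusedSectionVars false

/-!
Circuits with additional inputs which are fixed, under random restrictions.
-/

namespace Pool.Agent.N587.UG

open Finset DomAC0 H568R2 Pool.Agent.TH163.AC3 Pool.Agent.Y601.SSE

variable {I K : Type} [Fintype I] [DecidableEq I]

/-- all gates of depth at most `j` have shallow decision trees under `ρ` -/
def Shal (C : Circuit (I ⊕ K)) (a : K → Bool) (s j : ℕ) (ρ : Restr I) : Prop :=
  ∀ g : Fin C.size, C.gateDepth g ≤ j → HasDT s (rs (fun x => C.gateVal (Sum.elim x a) g) ρ)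

theorem shal_node (C : Circuit (I ⊕ K)) (a : K → Bool) {s j : ℕ} (hs : 1 ≤ s) {ρ : Restr I}
    (hG : Shal C a s j ρ) (v : (I ⊕ K) ⊕ Fin C.size) (hv : C.nodeDepth v ≤ j) :
    HasDT s (rs (fun x => C.nodeVal (Sum.elim x a) v) ρ) := by
  cases v with
  | inl i =>
    cases i with
    | inl i =>
      cases hρ : ρ i with
      | none =>
        refine ⟨TH163.AC3.Tree.node i (TH163.AC3.Tree.leaf false) (TH163.AC3.Tree.leaf true), ?_, ?_⟩
        · unfold TH163.AC3.Tree.depth
          simp only [TH163.AC3.Tree.depth]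
          omega
        · intro x
          have h1 : rs (fun x => C.nodeVal (Sum.elim x a) (Sum.inl (Sum.inl i))) ρ x = x i := by
            show ov ρ x i = x i
            unfold ov
            rw [hρ]
            rfl
          rw [h1]
          unfold TH163.AC3.Tree.eval
          rcases hx : x i with _ | _
          · simp [TH163.AC3.Tree.eval]
          · simp [TH163.AC3.Tree.eval]
      | some b =>
        apply hasDT_const b
        intro x
        show ov ρ x i = b
        unfold ov
        rw [hρ]
        rfl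
    | inr i =>
      apply hasDT_const (a i)
      intro x
      rfl
  | inr g => exact hG g hv

theorem shal_cert (C : Circuit (I ⊕ K)) (a : K → Bool) {s : ℕ} {ρ : Restr I} (g : Fin C.size)
    (Q : List ((I ⊕ K) ⊕ Fin C.size))
    (hQ : ∀ v ∈ Q, HasDT s (rs (fun x => C.nodeVal (Sum.elim x a) v) ρ)) :
    ∃ b, Cert s b (rs (fun x => gfun C g (Sum.elim x a) Q) ρ) := by
  cases hg : C.kind g with
  | and =>
    refine ⟨false, ?_⟩
    intro x hx
    simp only [rs, gfun, hg, decide_eq_false_iff_not, not_forall] at hx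
    obtain ⟨v, hvQ, hv⟩ := hx
    have hv' : rs (fun x => C.nodeVal (Sum.elim x a) v) ρ x = false := by
      show C.nodeVal (Sum.elim (ov ρ x) a) v = false
      simpa using hv
    obtain ⟨A, hA, hy⟩ := (hQ v hvQ).cert false x hv'
    refine ⟨A, hA, fun y hxy => ?_⟩
    simp only [rs, gfun, hg, decide_eq_false_iff_not, not_forall]
    exact ⟨v, hvQ, by have := hy y hxy; simpa [rs] using this⟩
  | or =>
    refine ⟨true, ?_⟩
    intro x hx
    simp only [rs, gfun, hg, decide_eq_true_eq] at hx
    obtain ⟨v, hvQ, hv⟩ := hx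
    obtain ⟨A, hA, hy⟩ := (hQ v hvQ).cert true x hv
    refine ⟨A, hA, fun y hxy => ?_⟩
    simp only [rs, gfun, hg, decide_eq_true_eq]
    exact ⟨v, hvQ, hy y hxy⟩
  | not =>
    refine ⟨false, ?_⟩
    intro x hx
    simp only [rs, gfun, hg, decide_eq_false_iff_not, not_forall] at hx
    obtain ⟨v, hvQ, hv⟩ := hx
    have hv' : rs (fun x => C.nodeVal (Sum.elim x a) v) ρ x = true := by
      show C.nodeVal (Sum.elim (ov ρ x) a) v = true
      simpa using hv
    obtain ⟨A, hA, hy⟩ := (hQ v hvQ).cert true x hv'
    refine ⟨A, hA, fun y hxy => ?_⟩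
    simp only [rs, gfun, hg, decide_eq_false_iff_not, not_forall]
    exact ⟨v, hvQ, by have := hy y hxy; simpa [rs] using this⟩

open Classical in
theorem shal_collapse (C : Circuit (I ⊕ K)) (a : K → Bool) {q : ℝ} (h0 : 0 ≤ q) (h1 : q ≤ 1 / 3)
    {s : ℕ} (hs : 1 ≤ s) :
    ∀ j : ℕ, Ex (wq (q ^ j)) (fun ρ : Restr I => if ¬ Shal C a s j ρ then (1 : ℝ) else 0) ≤
      j * C.size * (12 * s * q) ^ (s + 1) := by
  intro j
  induction j with
  | zero =>
    have hgood : ∀ ρ : Restr I, Shal C a s 0 ρ := by
      intro ρ g hg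
      have : 0 < C.gateDepth g := by rw [Circuit.gateDepth]; omega
      omega
    simp only [hgood, not_true, if_false]
    unfold Ex
    simp
  | succ j ih =>
    rw [pow_succ, wq_cmp]
    set ε : ℝ := (12 * s * q) ^ (s + 1) with hε
    have hε0 : 0 ≤ ε := by positivity
    have hwj : ∀ a, 0 ≤ wq (q ^ j) a :=
      wq_nonneg (pow_nonneg h0 j) (pow_le_one₀ h0 (by linarith))
    have hw1 : ∀ a, 0 ≤ wq q a := wq_nonneg h0 (by linarith)
    have hin : ∀ ρ : Restr I, Ex (wq q) (fun τ : Restr I =>
        if ¬ Shal C a s (j + 1) (cmp ρ τ) then (1 : ℝ) else 0) ≤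
        (if ¬ Shal C a s j ρ then (1 : ℝ) else 0) + C.size * ε := by
      intro ρ
      by_cases hG : Shal C a s j ρ
      · simp only [hG, not_true, if_false, zero_add]
        have hpt : ∀ τ : Restr I, (if ¬ Shal C a s (j + 1) (cmp ρ τ) then (1 : ℝ) else 0) ≤
            ∑ g ∈ univ.filter (fun g : Fin C.size => C.gateDepth g ≤ j + 1),
              (if ¬ HasDT s (rs (rs (fun x => C.gateVal (Sum.elim x a) g) ρ) τ)
                then (1 : ℝ) else 0) := by
          intro τ
          have hnn : ∀ g ∈ univ.filter (fun g : Fin C.size => C.gateDepth g ≤ j + 1),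
              (0 : ℝ) ≤ (if ¬ HasDT s (rs (rs (fun x => C.gateVal (Sum.elim x a) g) ρ) τ)
                then (1 : ℝ) else 0) := by
            intro g _
            split_ifs <;> norm_num
          by_cases hGG : Shal C a s (j + 1) (cmp ρ τ)
          · simp only [hGG, not_true, if_false]
            exact Finset.sum_nonneg hnn
          · simp only [hGG, not_false_iff, if_true]
            have hex : ∃ g : Fin C.size, C.gateDepth g ≤ j + 1 ∧
                ¬ HasDT s (rs (fun x => C.gateVal (Sum.elim x a) g) (cmp ρ τ)) := by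
              by_contra hcon
              apply hGG
              intro g hg
              by_contra hJ
              exact hcon ⟨g, hg, hJ⟩
            obtain ⟨g, hg, hJ⟩ := hex
            rw [rs_cmp] at hJ
            refine le_trans ?_ (Finset.single_le_sum hnn
              (Finset.mem_filter.2 ⟨Finset.mem_univ g, hg⟩))
            rw [if_pos hJ]
        refine (Ex_mono hw1 hpt).trans ?_
        rw [Ex_sum]
        have hterm : ∀ g ∈ univ.filter (fun g : Fin C.size => C.gateDepth g ≤ j + 1),
            Ex (wq q) (fun τ : Restr I => (if ¬ HasDT s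
                (rs (rs (fun x => C.gateVal (Sum.elim x a) g) ρ) τ)
                then (1 : ℝ) else 0)) ≤ ε := by
          intro g hgi
          have hgd : C.gateDepth g ≤ j + 1 := (Finset.mem_filter.1 hgi).2
          obtain ⟨b, hb⟩ := shal_cert C a (s := s) (ρ := ρ) g (C.preds g).toList (by
            intro v hv
            apply shal_node C a hs hG
            have hvp : v ∈ C.preds g := by
              rwa [Finset.mem_toList] at hv
            have := depth_lt C g v hvp
            omega)
          have h2 : (fun x => C.gateVal (Sum.elim x a) g) =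
              fun x => gfun C g (Sum.elim x a) (C.preds g).toList := by
            funext x
            exact gateVal_eq C (Sum.elim x a) g
          rw [← h2] at hb
          exact switching' h0 h1 hb
        refine (Finset.sum_le_card_nsmul _ _ _ hterm).trans ?_
        rw [nsmul_eq_mul]
        apply mul_le_mul_of_nonneg_right _ hε0
        have : (univ.filter (fun g : Fin C.size => C.gateDepth g ≤ j + 1)).card ≤ C.size := by
          refine (Finset.card_le_univ _).trans ?_
          simp
        exact_mod_cast this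
      · simp only [hG, not_false_iff, if_true]
        have h2 : Ex (wq q) (fun τ : Restr I =>
            if ¬ Shal C a s (j + 1) (cmp ρ τ) then (1 : ℝ) else 0) ≤
            Ex (wq q) (fun _ : Restr I => (1 : ℝ)) := by
          apply Ex_mono hw1
          intro τ
          split_ifs <;> norm_num
        rw [Ex_const (wq_sum q)] at h2
        have : 0 ≤ C.size * ε := by positivity
        linarith
    refine (Ex_mono hwj hin).trans ?_
    rw [Ex_add, Ex_const (wq_sum (q ^ j))]
    push_cast at ih ⊢
    linarith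

open Classical in
/-- a restriction with many stars under which all gates are shallow, for all fixed inputs -/
theorem shal_restr [Fintype K] (C : Circuit (I ⊕ K)) (hI : 0 < Fintype.card I) {s : ℕ}
    (hs : 1 ≤ s) (h : ℕ)
    (hcond : 2 ^ Fintype.card K * (h * C.size * (24 * s) ^ h) ≤ 2 ^ s) :
    ∃ ρ : Restr I, (∀ a, Shal C a s h ρ) ∧
      (Fintype.card I : ℝ) ≤ 4 * (24 * s) ^ h * (univ.filter fun i => ρ i = none).card := by
  obtain ⟨q, hq⟩ : ∃ q : ℝ, q = 1 / (24 * s) := ⟨_, rfl⟩
  have hs0 : (1 : ℝ) ≤ s := by exact_mod_cast hs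
  have hq0 : 0 < q := by rw [hq]; positivity
  have hq1 : q ≤ 1 / 3 := by
    rw [hq, div_le_div_iff₀ (by positivity) (by norm_num)]
    linarith
  have hN : (0 : ℝ) < Fintype.card I := by exact_mod_cast hI
  have h1 : (12 * s * q : ℝ) = 1 / 2 := by rw [hq]; field_simp; norm_num
  have hqh : 0 < q ^ h := by positivity
  have hw : ∀ a, 0 ≤ wq (q ^ h) a :=
    wq_nonneg hqh.le (pow_le_one₀ hq0.le (by linarith))
  obtain ⟨A, hA⟩ : ∃ A : ℝ, A = 2 ^ Fintype.card K := ⟨_, rfl⟩
  have hbad : Ex (wq (q ^ h)) (fun ρ : Restr I =>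
      if ¬ ∀ a : K → Bool, Shal C a s h ρ then (1 : ℝ) else 0) ≤
      A * (h * C.size * (1 / 2) ^ (s + 1)) := by
    have hpt : ∀ ρ : Restr I, (if ¬ ∀ a : K → Bool, Shal C a s h ρ then (1 : ℝ) else 0) ≤
        ∑ a : K → Bool, if ¬ Shal C a s h ρ then (1 : ℝ) else 0 := by
      intro ρ
      have hnn : ∀ a ∈ (univ : Finset (K → Bool)),
          (0 : ℝ) ≤ if ¬ Shal C a s h ρ then (1 : ℝ) else 0 := by
        intro a _
        split_ifs <;> norm_num
      by_cases hall : ∀ a : K → Bool, Shal C a s h ρ
      · rw [if_neg (not_not.2 hall)]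
        exact sum_nonneg hnn
      · rw [if_pos hall]
        push Not at hall
        obtain ⟨a, ha⟩ := hall
        refine le_trans ?_ (Finset.single_le_sum hnn (mem_univ a))
        rw [if_pos ha]
    refine (Ex_mono hw hpt).trans ?_
    rw [Ex_sum univ (wq (q ^ h)) fun (a : K → Bool) (ρ : Restr I) =>
      if ¬ Shal C a s h ρ then (1 : ℝ) else 0]
    have h2 : ∀ a ∈ (univ : Finset (K → Bool)), Ex (wq (q ^ h)) (fun ρ : Restr I =>
        if ¬ Shal C a s h ρ then (1 : ℝ) else 0) ≤ h * C.size * (1 / 2) ^ (s + 1) := by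
      intro a _
      have := shal_collapse C a hq0.le hq1 hs h
      rwa [h1] at this
    refine (sum_le_card_nsmul _ _ _ h2).trans ?_
    rw [nsmul_eq_mul, card_univ, Fintype.card_fun, Fintype.card_bool, hA]
    push_cast
    exact le_rfl
  have h2 : A * (h * C.size * (1 / 2) ^ (s + 1)) ≤ q ^ h / 2 := by
    have h3 : ((2 ^ Fintype.card K * (h * C.size * (24 * s) ^ h) : ℕ) : ℝ) ≤
        ((2 ^ s : ℕ) : ℝ) := by exact_mod_cast hcond
    push_cast at h3
    rw [← hA] at h3
    have h4 : q ^ h * (24 * s) ^ h = 1 := by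
      rw [← mul_pow, hq]
      have : (1 : ℝ) / (24 * s) * (24 * s) = 1 := by field_simp
      rw [this, one_pow]
    have h5 : ((1 : ℝ) / 2) ^ (s + 1) * 2 ^ s = 1 / 2 := by
      rw [pow_succ, mul_right_comm, ← mul_pow]
      norm_num
    have h6 : (0 : ℝ) < (24 * s) ^ h := by positivity
    have h7 : A * (h * C.size * (1 / 2) ^ (s + 1)) * (24 * s) ^ h ≤ 1 / 2 := by
      calc A * (h * C.size * (1 / 2) ^ (s + 1)) * (24 * s) ^ h
          = (1 / 2) ^ (s + 1) * (A * (h * C.size * (24 * s) ^ h)) := by ring
        _ ≤ (1 / 2) ^ (s + 1) * 2 ^ s := mul_le_mul_of_nonneg_left h3 (by positivity)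
        _ = 1 / 2 := h5
    calc A * (h * C.size * (1 / 2) ^ (s + 1))
        = A * (h * C.size * (1 / 2) ^ (s + 1)) * (24 * s) ^ h * q ^ h := by
          rw [mul_assoc _ ((24 * s : ℝ) ^ h), mul_comm ((24 * s : ℝ) ^ h), h4, mul_one]
      _ ≤ 1 / 2 * q ^ h := mul_le_mul_of_nonneg_right h7 hqh.le
      _ = q ^ h / 2 := by ring
  have hbad2 := hbad.trans h2
  -- the expectation of the number of stars
  have hstars : Ex (wq (q ^ h)) (fun ρ : Restr I =>
      ((univ.filter fun i => ρ i = none).card : ℝ)) = Fintype.card I * q ^ h := by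
    have e1 : (fun ρ : Restr I => ((univ.filter fun i => ρ i = none).card : ℝ)) =
        fun ρ : Restr I => ∑ i, if ρ i = none then (1 : ℝ) else 0 := by
      funext ρ
      rw [card_filter]
      push_cast
      rfl
    rw [e1, Ex_sum univ (wq (q ^ h)) fun i (ρ : Restr I) => if ρ i = none then (1 : ℝ) else 0]
    rw [sum_congr rfl fun i _ => ex_star (p := q ^ h) i, sum_const, nsmul_eq_mul, card_univ]
  by_contra hcon
  push Not at hcon
  have hpt2 : ∀ ρ : Restr I,
      ((univ.filter fun i => ρ i = none).card : ℝ) ≤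
      (Fintype.card I : ℝ) * (if ¬ ∀ a : K → Bool, Shal C a s h ρ then (1 : ℝ) else 0) +
        (Fintype.card I : ℝ) * (q ^ h / 4) := by
    intro ρ
    by_cases hS : ∀ a : K → Bool, Shal C a s h ρ
    · have h3 := hcon ρ hS
      rw [if_neg (not_not.2 hS), mul_zero, zero_add]
      have h4 : q ^ h * (24 * s) ^ h = 1 := by
        rw [← mul_pow, hq]
        have : (1 : ℝ) / (24 * s) * (24 * s) = 1 := by field_simp
        rw [this, one_pow]
      have h5 := mul_lt_mul_of_pos_right h3 hqh
      have h6 : 4 * (24 * (s : ℝ)) ^ h * (univ.filter fun i => ρ i = none).card * q ^ h =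
          4 * (univ.filter fun i => ρ i = none).card := by
        calc _ = 4 * (univ.filter fun i => ρ i = none).card * (q ^ h * (24 * (s : ℝ)) ^ h) := by
              ring
          _ = _ := by rw [h4, mul_one]
      rw [h6] at h5
      linarith
    · rw [if_pos hS, mul_one]
      have h3 : ((univ.filter fun i => ρ i = none).card : ℝ) ≤ Fintype.card I := by
        exact_mod_cast card_le_univ _
      have h4 : 0 ≤ (Fintype.card I : ℝ) * (q ^ h / 4) := by positivity
      linarith
  have h8 := Ex_mono hw hpt2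
  rw [hstars, Ex_add (wq (q ^ h)) (fun ρ : Restr I => (Fintype.card I : ℝ) *
      (if ¬ ∀ a : K → Bool, Shal C a s h ρ then (1 : ℝ) else 0))
      fun _ => (Fintype.card I : ℝ) * (q ^ h / 4),
    Ex_smul, Ex_const (wq_sum _)] at h8
  have h9 := mul_le_mul_of_nonneg_left hbad2 hN.le
  have h10 : 0 < (Fintype.card I : ℝ) * q ^ h := mul_pos hN hqh
  nlinarith

end Pool.Agent.N587.UG
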