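import Pool.Agent.N587.UG.Lip

set_option autoImplicit false
set_option linter.unusedSectionVars false

/-!
The main counting: answers of the oracle gates which seldom change when a variable is flipped.
-/

namespace Pool.Agent.N587.UG

open Finset Pool.Agent.Y601.SSE

open scoped Classical

/-- the number of thresholds of a grid between two numbers -/
theorem grid (R : ℕ) (hR : 1 ≤ R) (δ w : ℝ) (hw : 0 < w) (u v : ℝ) :
    (((range R).filter fun r : ℕ => ¬ ((δ + w * ((r : ℝ) + 1) / R ≤ u) ↔ (δ + w * ((r : ℝ) + 1) / R ≤ v))).card : ℝ)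
      ≤ R * |u - v| / w + 1 := by
  have hR0 : (0 : ℝ) < R := by exact_mod_cast hR
  have key : ∀ u v : ℝ, u ≤ v →
      (((range R).filter fun r : ℕ => ¬ ((δ + w * ((r : ℝ) + 1) / R ≤ u) ↔
        (δ + w * ((r : ℝ) + 1) / R ≤ v))).card : ℝ) ≤ R * (v - u) / w + 1 := by
    intro u v huv
    obtain ⟨a, ha⟩ : ∃ a : ℝ, a = R * (u - δ) / w := ⟨_, rfl⟩
    obtain ⟨b, hb⟩ : ∃ b : ℝ, b = R * (v - δ) / w := ⟨_, rfl⟩
    have h1 : ((range R).filter fun r : ℕ => ¬ ((δ + w * ((r : ℝ) + 1) / R ≤ u) ↔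
        (δ + w * ((r : ℝ) + 1) / R ≤ v))).card ≤ (Finset.Ioc ⌊a⌋ ⌊b⌋).card := by
      apply card_le_card_of_injOn (fun r : ℕ => (r : ℤ) + 1)
      · intro r hr
        rw [mem_coe, mem_filter] at hr
        have h2 : ¬ (δ + w * ((r : ℝ) + 1) / R ≤ u) ∧ (δ + w * ((r : ℝ) + 1) / R ≤ v) := by
          by_cases h3 : δ + w * (r + 1) / R ≤ u
          · exact absurd ⟨fun _ => h3.trans huv, fun _ => h3⟩ hr.2
          · refine ⟨h3, ?_⟩
            by_contra h4
            exact hr.2 ⟨fun h => absurd h h3, fun h => absurd h h4⟩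
        rw [mem_coe, Finset.mem_Ioc, Int.floor_lt, Int.le_floor]
        push_cast
        constructor
        · rw [ha, div_lt_iff₀ hw]
          have h5 : u - δ < w * (r + 1) / R := by linarith [h2.1]
          rw [lt_div_iff₀ hR0] at h5
          linarith
        · rw [hb, le_div_iff₀ hw]
          have h5 : w * (r + 1) / R ≤ v - δ := by linarith [h2.2]
          rw [div_le_iff₀ hR0] at h5
          linarith
      · intro r _ r' _ h
        simpa using h
    have h2 : (Finset.Ioc ⌊a⌋ ⌊b⌋).card = (⌊b⌋ - ⌊a⌋).toNat := Int.card_Ioc _ _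
    have hab : a ≤ b := by
      rw [ha, hb]
      exact div_le_div_of_nonneg_right (mul_le_mul_of_nonneg_left (by linarith) hR0.le) hw.le
    have h3 : (((⌊b⌋ - ⌊a⌋).toNat : ℤ) : ℝ) = (⌊b⌋ : ℝ) - ⌊a⌋ := by
      rw [Int.toNat_of_nonneg (by have := Int.floor_le_floor hab; omega)]
      push_cast
      rfl
    have h4 : (((⌊b⌋ - ⌊a⌋).toNat : ℕ) : ℝ) = (⌊b⌋ : ℝ) - ⌊a⌋ := by
      rw [← h3]
      norm_cast
    have h5 : (⌊b⌋ : ℝ) ≤ b := Int.floor_le b
    have h6 : a < ⌊a⌋ + 1 := Int.lt_floor_add_one a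
    have h7 : b - a = R * (v - u) / w := by
      rw [ha, hb]
      ring
    calc (((range R).filter fun r : ℕ => ¬ ((δ + w * ((r : ℝ) + 1) / R ≤ u) ↔
        (δ + w * ((r : ℝ) + 1) / R ≤ v))).card : ℝ) ≤ ((Finset.Ioc ⌊a⌋ ⌊b⌋).card : ℝ) := by
          exact_mod_cast h1
      _ = (⌊b⌋ : ℝ) - ⌊a⌋ := by rw [h2, h4]
      _ ≤ R * (v - u) / w + 1 := by linarith
  rcases le_total u v with h | h
  · rw [abs_sub_comm, abs_of_nonneg (by linarith)]
    exact key u v h
  · rw [abs_of_nonneg (by linarith)]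
    have h1 := key v u h
    have h2 : ((range R).filter fun r : ℕ => ¬ ((δ + w * ((r : ℝ) + 1) / R ≤ u) ↔
        (δ + w * ((r : ℝ) + 1) / R ≤ v))) = ((range R).filter fun r : ℕ => ¬ ((δ + w * ((r : ℝ) + 1) / R ≤ v) ↔
        (δ + w * ((r : ℝ) + 1) / R ≤ u))) := by
      apply filter_congr
      intro r _
      exact not_congr ⟨Iff.symm, Iff.symm⟩
    rw [h2]
    exact h1

section flips

variable {I : Type} [Fintype I] [DecidableEq I]

/-- sums over pairs are symmetric -/
theorem sum_swap (J : Finset I) (F : (I → Bool) → (I → Bool) → ℝ) :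
    ∑ x, ∑ j ∈ J, F x (Y601.SSE.flip j x) = ∑ x, ∑ j ∈ J, F (Y601.SSE.flip j x) x := by
  rw [sum_comm, sum_comm (s := univ) (t := J)]
  refine sum_congr rfl fun j _ => ?_
  exact Fintype.sum_equiv ⟨Y601.SSE.flip j, Y601.SSE.flip j, Y601.SSE.flip_flip j, Y601.SSE.flip_flip j⟩ _ _ fun x => by
    show F x (Y601.SSE.flip j x) = F (Y601.SSE.flip j (Y601.SSE.flip j x)) (Y601.SSE.flip j x)
    rw [Y601.SSE.flip_flip]

end flips

section stage

variable {I : Type} [Fintype I] [DecidableEq I] {k M q : ℕ} {U V : Type}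

/-- the first `n` answers are consistent with an oracle for the problem -/
def Good (Q : Fin k → (I → Bool) → (Fin k → Bool) → Game U V q M) (ε δ : ℝ) (n : ℕ)
    (x : I → Bool) (a : Fin k → Bool) : Prop :=
  (∀ i : Fin k, i.val < n → Yes ε (Q i x a) → a i = true) ∧
  (∀ i : Fin k, i.val < n → No δ (Q i x a) → a i = false) ∧
  (∀ i i' : Fin k, i.val < n → i'.val < n → Q i x a = Q i' x a → a i = a i')

/-- the next answer -/
noncomputable def bit (Q : Fin k → (I → Bool) → (Fin k → Bool) → Game U V q M) (i0 : Fin k)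
    (t : ℝ) (x : I → Bool) (a : Fin k → Bool) : Bool :=
  if ∃ i, i < i0 ∧ Q i x a = Q i0 x a then
    decide (∃ i, i < i0 ∧ Q i x a = Q i0 x a ∧ a i = true)
  else decide (t ≤ val (Q i0 x a))

theorem good_step (hq : 1 ≤ q) {Q : Fin k → (I → Bool) → (Fin k → Bool) → Game U V q M}
    (hQ : ∀ i x a a', (∀ j, j < i → a j = a' j) → Q i x a = Q i x a') {ε δ : ℝ} (i0 : Fin k)
    {x : I → Bool} {a : Fin k → Bool} (h : Good Q ε δ i0.val x a) {t : ℝ} (ht : δ < t)
    (ht' : t ≤ 1 - ε) :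
    Good Q ε δ (i0.val + 1) x (Function.update a i0 (bit Q i0 t x a)) := by
  obtain ⟨h1, h2, h3⟩ := h
  obtain ⟨a', ha'⟩ : ∃ a', a' = Function.update a i0 (bit Q i0 t x a) := ⟨_, rfl⟩
  rw [← ha']
  have e1 : ∀ i : Fin k, i ≠ i0 → a' i = a i := by
    intro i hi
    rw [ha', Function.update_of_ne hi]
  have e0 : a' i0 = bit Q i0 t x a := by rw [ha', Function.update_self]
  have eQ : ∀ i : Fin k, i.val < i0.val + 1 → Q i x a' = Q i x a := by
    intro i hi
    apply hQ
    intro j hj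
    apply e1
    intro h
    rw [h, Fin.lt_def] at hj
    omega
  have hcase : ∀ i : Fin k, i.val < i0.val + 1 → i = i0 ∨ (i.val < i0.val ∧ i ≠ i0) := by
    intro i hi
    by_cases h : i = i0
    · exact Or.inl h
    · refine Or.inr ⟨?_, h⟩
      have : i.val ≠ i0.val := fun h' => h (Fin.ext h')
      omega
  -- an equal query asked before has the same answer
  have hsame : ∀ i : Fin k, i.val < i0.val → Q i x a = Q i0 x a → bit Q i0 t x a = a i := by
    intro i hi he
    have hex : ∃ i, i < i0 ∧ Q i x a = Q i0 x a := ⟨i, Fin.lt_def.2 hi, he⟩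
    unfold bit
    rw [if_pos hex]
    cases hai : a i
    · rw [decide_eq_false_iff_not]
      rintro ⟨i', hi', he', hai'⟩
      have := h3 i i' hi (Fin.lt_def.1 hi') (he.trans he'.symm)
      rw [hai, hai'] at this
      exact absurd this (by simp)
    · rw [decide_eq_true_eq]
      exact ⟨i, Fin.lt_def.2 hi, he, hai⟩
  refine ⟨?_, ?_, ?_⟩
  · intro i hi hy
    rw [eQ i hi] at hy
    rcases hcase i hi with h | ⟨h, hne⟩
    · subst h
      rw [e0]
      by_cases hex : ∃ i', i' < i ∧ Q i' x a = Q i x a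
      · obtain ⟨i', hi', he⟩ := hex
        rw [hsame i' (Fin.lt_def.1 hi') he]
        exact h1 i' (Fin.lt_def.1 hi') (by rw [he]; exact hy)
      · unfold bit
        rw [if_neg hex, decide_eq_true_eq]
        exact ht'.trans (yes_val hy)
    · rw [e1 i hne]
      exact h1 i h hy
  · intro i hi hy
    rw [eQ i hi] at hy
    rcases hcase i hi with h | ⟨h, hne⟩
    · subst h
      rw [e0]
      by_cases hex : ∃ i', i' < i ∧ Q i' x a = Q i x a
      · obtain ⟨i', hi', he⟩ := hex
        rw [hsame i' (Fin.lt_def.1 hi') he]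
        exact h2 i' (Fin.lt_def.1 hi') (by rw [he]; exact hy)
      · unfold bit
        rw [if_neg hex, decide_eq_false_iff_not, not_le]
        exact (no_val hq hy).trans_lt ht
    · rw [e1 i hne]
      exact h2 i h hy
  · intro i i' hi hi' he
    rw [eQ i hi, eQ i' hi'] at he
    rcases hcase i hi with h | ⟨h, hne⟩
    · rcases hcase i' hi' with h' | ⟨h', hne'⟩
      · rw [h, h']
      · rw [h, e0, e1 i' hne']
        rw [h] at he
        exact hsame i' h' he.symm
    · rcases hcase i' hi' with h' | ⟨h', hne'⟩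
      · rw [h', e0, e1 i hne]
        rw [h'] at he
        exact (hsame i h he).symm
      · rw [e1 i hne, e1 i' hne']
        exact h3 i i' h h' he

/-- if the next answers are different, then a coincidence of queries is different or the threshold
is between the two values -/
theorem bit_ne {Q : Fin k → (I → Bool) → (Fin k → Bool) → Game U V q M} {i0 : Fin k} {t : ℝ}
    {x y : I → Bool} {a : Fin k → Bool} (h : bit Q i0 t y a ≠ bit Q i0 t x a) :
    (∃ i, i < i0 ∧ Q i x a ≠ Q i0 x a ∧ Q i y a = Q i0 y a) ∨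
    (∃ i, i < i0 ∧ Q i x a = Q i0 x a ∧ Q i y a ≠ Q i0 y a) ∨
    ¬ ((t ≤ val (Q i0 x a)) ↔ (t ≤ val (Q i0 y a))) := by
  by_contra hcon
  push Not at hcon
  obtain ⟨c1, c2, c3⟩ := hcon
  have hiff : ∀ i, i < i0 → (Q i x a = Q i0 x a ↔ Q i y a = Q i0 y a) := by
    intro i hi
    constructor
    · exact fun h => c2 i hi h
    · intro h
      by_contra h'
      exact c1 i hi h' h
  apply h
  unfold bit
  have e1 : (∃ i, i < i0 ∧ Q i y a = Q i0 y a) ↔ (∃ i, i < i0 ∧ Q i x a = Q i0 x a) := by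
    constructor
    · rintro ⟨i, hi, he⟩
      exact ⟨i, hi, (hiff i hi).2 he⟩
    · rintro ⟨i, hi, he⟩
      exact ⟨i, hi, (hiff i hi).1 he⟩
  have e2 : (∃ i, i < i0 ∧ Q i y a = Q i0 y a ∧ a i = true) ↔
      (∃ i, i < i0 ∧ Q i x a = Q i0 x a ∧ a i = true) := by
    constructor
    · rintro ⟨i, hi, he, hb⟩
      exact ⟨i, hi, (hiff i hi).2 he, hb⟩
    · rintro ⟨i, hi, he, hb⟩
      exact ⟨i, hi, (hiff i hi).1 he, hb⟩
  by_cases hex : ∃ i, i < i0 ∧ Q i x a = Q i0 x a
  · rw [if_pos hex, if_pos (e1.2 hex), decide_eq_decide]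
    exact e2
  · rw [if_neg hex, if_neg (fun h => hex (e1.1 h)), decide_eq_decide]
    exact c3.symm

end stage

end Pool.Agent.N587.UG
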