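import Pool.Agent.Y601.SSE.Ac0

set_option autoImplicit false

/-!
# Turing reductions of small depth to unique games: definitions
-/

namespace Pool.Agent.N587.UG

open Finset DomAC0

/-- A constraint of a unique game: vertices `u`, `v` and a permutation `π` of the labels; it asks
for `π (label u) = label v`. -/
abbrev Con (U V : Type) (q : ℕ) : Type := U × V × Equiv.Perm (Fin q)

/-- A game, given by `M` slots, each of which is empty or contains a constraint. (So a game is a
list of at most `M` constraints; with one slot for every possible constraint one gets games given
by their indicator function.) -/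
abbrev Game (U V : Type) (q M : ℕ) : Type := Fin M → Option (Con U V q)

variable {U V : Type} {q M : ℕ}

/-- the number of constraints -/
noncomputable def size (G : Game U V q M) : ℕ := by
  classical exact (univ.filter fun l => G l ≠ none).card

/-- the number of constraints which are satisfied by the labels `f` and `g` -/
noncomputable def nsat (G : Game U V q M) (f : U → Fin q) (g : V → Fin q) : ℕ := by
  classical exact (univ.filter fun l => ∃ c, G l = some c ∧ c.2.2 (f c.1) = g c.2.1).card

/-- the game has a constraint and its value is at least `1 - ε` -/
def Yes (ε : ℝ) (G : Game U V q M) : Prop :=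
  0 < size G ∧ ∃ (f : U → Fin q) (g : V → Fin q), (1 - ε) * size G ≤ nsat G f g

/-- the game has a constraint and its value is at most `δ` -/
def No (δ : ℝ) (G : Game U V q M) : Prop :=
  0 < size G ∧ ∀ (f : U → Fin q) (g : V → Fin q), (nsat G f g : ℝ) ≤ δ * size G

/-- A circuit with `N` inputs and with `k` oracle gates, whose queries are games. The circuit `C`
has AND and OR gates of unbounded fan-in and NOT gates; its inputs are the `N` input variables and
the `k` answers of the oracle gates. Slot `l` of the game which is asked by gate `i` is encoded by
the `B` bits `wire i l b`, through the map `dec l`. The output is the output of `C`. -/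
structure OracleCircuit (N k M B : ℕ) (U V : Type) (q : ℕ) where
  C : Circuit (Fin N ⊕ Fin k)
  wire : Fin k → Fin M → Fin B → (Fin N ⊕ Fin k) ⊕ Fin C.size
  dec : Fin M → (Fin B → Bool) → Option (Con U V q)

variable {N k B : ℕ}

/-- the game which is asked by the oracle gate `i` on the input `x` if the answers are `a` -/
noncomputable def OracleCircuit.query (R : OracleCircuit N k M B U V q) (i : Fin k)
    (x : Fin N → Bool) (a : Fin k → Bool) : Game U V q M :=
  fun l => R.dec l fun b => R.C.nodeVal (Sum.elim x a) (R.wire i l b)

/-- the game asked by gate `i` depends only on the answers of the gates `j < i` -/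
def OracleCircuit.Acyclic (R : OracleCircuit N k M B U V q) : Prop :=
  ∀ (i : Fin k) (x : Fin N → Bool) (a a' : Fin k → Bool),
    (∀ j, j < i → a j = a' j) → R.query i x a = R.query i x a'

/-- there are at most `h` levels of gates between inputs or oracle gates and oracle gates or the
output -/
def OracleCircuit.Levels (R : OracleCircuit N k M B U V q) (h : ℕ) : Prop :=
  R.C.depth ≤ h ∧ ∀ i l b, R.C.nodeDepth (R.wire i l b) ≤ h

/-- The circuit computes parity from every oracle `O` which solves the problem to distinguish
value at least `1 - ε` from value at most `δ`: whenever `a` is the vector of the answers of `O` on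
the input `x`, the output is the parity of `x`. -/
def OracleCircuit.Parity (R : OracleCircuit N k M B U V q) (ε δ : ℝ) : Prop :=
  ∀ O : Game U V q M → Bool, (∀ G, Yes ε G → O G = true) → (∀ G, No δ G → O G = false) →
    ∀ (x : Fin N → Bool) (a : Fin k → Bool), (∀ i, a i = O (R.query i x a)) →
      (R.C.eval (Sum.elim x a) = true ↔ Odd (univ.filter fun i => x i = true).card)

end Pool.Agent.N587.UG
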