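import Pool.Agent.N587.UG.Stage

set_option autoImplicit false
set_option linter.unusedSectionVars false

/-!
Formulas: Khrapchenko's bound and reductions computed by small formulas.
-/

namespace Pool.Agent.N587.UG

open Finset

/-- formulas over AND, OR and NOT, with the negations at the leaves -/
inductive Formula (I : Type) : Type
  | const : Bool → Formula I
  | lit : I → Bool → Formula I
  | and : Formula I → Formula I → Formula I
  | or : Formula I → Formula I → Formula I

/-- the value of a formula; `lit i b` is the literal `x i = b` -/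
def Formula.eval {I : Type} : Formula I → (I → Bool) → Bool
  | .const b, _ => b
  | .lit i b, x => x i == b
  | .and F G, x => F.eval x && G.eval x
  | .or F G, x => F.eval x || G.eval x

/-- the number of leaves -/
def Formula.leaves {I : Type} : Formula I → ℕ
  | .const _ => 1
  | .lit _ _ => 1
  | .and F G => F.leaves + G.leaves
  | .or F G => F.leaves + G.leaves

section

open scoped Classical

variable {I : Type} [Fintype I] [DecidableEq I]

/-- the number of edges from `A` to `B` -/
noncomputable def edg (A B : Finset (I → Bool)) : ℕ :=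
  ∑ x ∈ A, (univ.filter fun j => Y601.SSE.flip j x ∈ B).card

theorem edg_union_right (A B B' : Finset (I → Bool)) (h : Disjoint B B') :
    edg A (B ∪ B') = edg A B + edg A B' := by
  unfold edg
  rw [← sum_add_distrib]
  refine sum_congr rfl fun x _ => ?_
  rw [← card_union_of_disjoint]
  · congr 1
    ext j
    simp only [mem_filter, mem_univ, true_and, mem_union]
  · rw [disjoint_left]
    intro j h1 h2
    rw [mem_filter] at h1 h2
    exact (disjoint_left.1 h) h1.2 h2.2

theorem edg_union_left (A A' B : Finset (I → Bool)) (h : Disjoint A A') :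
    edg (A ∪ A') B = edg A B + edg A' B := by
  unfold edg
  rw [sum_union h]

theorem edg_comm (A B : Finset (I → Bool)) : edg A B = edg B A := by
  have key : ∀ A B : Finset (I → Bool), edg A B =
      ∑ j, ∑ x, if x ∈ A ∧ Y601.SSE.flip j x ∈ B then 1 else 0 := by
    intro A B
    unfold edg
    rw [sum_comm, ← sum_subset (subset_univ A)]
    · refine sum_congr rfl fun x hx => ?_
      rw [card_filter]
      refine sum_congr rfl fun j _ => ?_
      simp only [hx, true_and]
    · intro x _ hx
      apply sum_eq_zero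
      intro j _
      rw [if_neg]
      exact fun h => hx h.1
  rw [key, key]
  refine sum_congr rfl fun j _ => ?_
  refine Fintype.sum_equiv ⟨Y601.SSE.flip j, Y601.SSE.flip j, Y601.SSE.flip_flip j,
    Y601.SSE.flip_flip j⟩ _ _ fun x => ?_
  show (if x ∈ A ∧ Y601.SSE.flip j x ∈ B then 1 else 0) =
    if Y601.SSE.flip j x ∈ B ∧ Y601.SSE.flip j (Y601.SSE.flip j x) ∈ A then 1 else 0
  rw [Y601.SSE.flip_flip]
  simp only [and_comm]

theorem edg_le_left {A B : Finset (I → Bool)} (h : ∀ x ∈ A,
    (univ.filter fun j => Y601.SSE.flip j x ∈ B).card ≤ 1) : edg A B ≤ A.card := by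
  unfold edg
  refine (sum_le_card_nsmul _ _ _ h).trans ?_
  simp

theorem cs {e1 e2 l1 l2 a b1 b2 : ℝ} (h1 : e1 ^ 2 ≤ l1 * (a * b1)) (h2 : e2 ^ 2 ≤ l2 * (a * b2))
    (hl1 : 0 ≤ l1) (hl2 : 0 ≤ l2) (ha : 0 ≤ a) (hb1 : 0 ≤ b1) (hb2 : 0 ≤ b2) :
    (e1 + e2) ^ 2 ≤ (l1 + l2) * (a * (b1 + b2)) := by
  have h3 : e1 ≤ Real.sqrt (l1 * (a * b1)) := Real.le_sqrt_of_sq_le h1
  have h4 : e2 ≤ Real.sqrt (l2 * (a * b2)) := Real.le_sqrt_of_sq_le h2
  have h5 : 2 * (e1 * e2) ≤ l1 * (a * b2) + l2 * (a * b1) := by
    have h6 : (e1 * e2) ^ 2 ≤ (l1 * (a * b2)) * (l2 * (a * b1)) := by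
      have := mul_le_mul h1 h2 (sq_nonneg e2) (by positivity)
      nlinarith
    have h7 : 0 ≤ l1 * (a * b2) := by positivity
    have h8 : 0 ≤ l2 * (a * b1) := by positivity
    nlinarith [sq_nonneg (l1 * (a * b2) - l2 * (a * b1)),
      abs_le_of_sq_le_sq' (show (2 * (e1 * e2)) ^ 2 ≤ (l1 * (a * b2) + l2 * (a * b1)) ^ 2 by
        nlinarith [sq_nonneg (l1 * (a * b2) - l2 * (a * b1))]) (by positivity)]
  nlinarith

/-- Khrapchenko's bound -/
theorem khrapchenko (F : Formula I) : ∀ A B : Finset (I → Bool), (∀ x ∈ A, F.eval x = true) →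
    (∀ x ∈ B, F.eval x = false) → (edg A B : ℝ) ^ 2 ≤ F.leaves * (A.card * B.card) := by
  induction F with
  | const b =>
    intro A B hA hB
    cases b
    · have : A = ∅ := by
        rw [eq_empty_iff_forall_notMem]
        intro x hx
        have := hA x hx
        simp [Formula.eval] at this
      subst this
      simp [edg]
    · have : B = ∅ := by
        rw [eq_empty_iff_forall_notMem]
        intro x hx
        have := hB x hx
        simp [Formula.eval] at this
      subst this
      simp [edg]
  | lit i b =>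
    intro A B hA hB
    have hone : ∀ x : I → Bool, ∀ S : Finset (I → Bool),
        (∀ y ∈ S, (Formula.lit i b).eval y ≠ (Formula.lit i b).eval x) →
        (univ.filter fun j => Y601.SSE.flip j x ∈ S).card ≤ 1 := by
      intro x S hS
      have hsub : (univ.filter fun j => Y601.SSE.flip j x ∈ S) ⊆ {i} := by
        intro j hj
        rw [mem_filter] at hj
        rw [mem_singleton]
        by_contra hne
        apply hS _ hj.2
        show (Y601.SSE.flip j x i == b) = (x i == b)
        unfold Y601.SSE.flip
        rw [Function.update_of_ne (fun h => hne h.symm)]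
      exact (card_le_card hsub).trans (by simp)
    have h1 : edg A B ≤ A.card := edg_le_left fun x hx => hone x B fun y hy => by
      rw [hA x hx, hB y hy]; simp
    have h2 : edg A B ≤ B.card := by
      rw [edg_comm]
      exact edg_le_left fun x hx => hone x A fun y hy => by
        rw [hB x hx, hA y hy]; simp
    have h1' : (edg A B : ℝ) ≤ A.card := by exact_mod_cast h1
    have h2' : (edg A B : ℝ) ≤ B.card := by exact_mod_cast h2
    have h0 : (0 : ℝ) ≤ edg A B := Nat.cast_nonneg _
    simp only [Formula.leaves, Nat.cast_one, one_mul]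
    rw [sq]
    exact mul_le_mul h1' h2' h0 (Nat.cast_nonneg _)
  | and F G ihF ihG =>
    intro A B hA hB
    obtain ⟨B1, hB1⟩ : ∃ B1, B1 = B.filter fun x => F.eval x = false := ⟨_, rfl⟩
    obtain ⟨B2, hB2⟩ : ∃ B2, B2 = B.filter fun x => ¬ F.eval x = false := ⟨_, rfl⟩
    have hu : B1 ∪ B2 = B := by rw [hB1, hB2]; exact filter_union_filter_not_eq _ _
    have hd : Disjoint B1 B2 := by rw [hB1, hB2]; exact disjoint_filter_filter_not _ _ _
    have hA' : ∀ x ∈ A, F.eval x = true ∧ G.eval x = true := by
      intro x hx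
      have := hA x hx
      simpa [Formula.eval] using this
    have h1 := ihF A B1 (fun x hx => (hA' x hx).1) (fun x hx => by
      rw [hB1, mem_filter] at hx
      exact hx.2)
    have h2 := ihG A B2 (fun x hx => (hA' x hx).2) (fun x hx => by
      rw [hB2, mem_filter] at hx
      have h3 := hB x hx.1
      have h4 : F.eval x = true := by simpa using hx.2
      simpa [Formula.eval, h4] using h3)
    have h3 : edg A B = edg A B1 + edg A B2 := by
      rw [← edg_union_right A B1 B2 hd, hu]
    have h4 : (B.card : ℝ) = B1.card + B2.card := by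
      rw [← hu, card_union_of_disjoint hd]
      push_cast
      rfl
    rw [h3, h4]
    simp only [Formula.leaves]
    push_cast
    exact cs h1 h2 (Nat.cast_nonneg _) (Nat.cast_nonneg _) (Nat.cast_nonneg _)
      (Nat.cast_nonneg _) (Nat.cast_nonneg _)
  | or F G ihF ihG =>
    intro A B hA hB
    obtain ⟨A1, hA1⟩ : ∃ A1, A1 = A.filter fun x => F.eval x = true := ⟨_, rfl⟩
    obtain ⟨A2, hA2⟩ : ∃ A2, A2 = A.filter fun x => ¬ F.eval x = true := ⟨_, rfl⟩
    have hu : A1 ∪ A2 = A := by rw [hA1, hA2]; exact filter_union_filter_not_eq _ _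
    have hd : Disjoint A1 A2 := by rw [hA1, hA2]; exact disjoint_filter_filter_not _ _ _
    have hB' : ∀ x ∈ B, F.eval x = false ∧ G.eval x = false := by
      intro x hx
      have := hB x hx
      simpa [Formula.eval] using this
    have h1 := ihF A1 B (fun x hx => by
      rw [hA1, mem_filter] at hx
      exact hx.2) (fun x hx => (hB' x hx).1)
    have h2 := ihG A2 B (fun x hx => by
      rw [hA2, mem_filter] at hx
      have h3 := hA x hx.1
      have h4 : F.eval x = false := by simpa using hx.2
      simpa [Formula.eval, h4] using h3) (fun x hx => (hB' x hx).2)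
    have h3 : edg A B = edg A1 B + edg A2 B := by
      rw [← edg_union_left A1 A2 B hd, hu]
    have h4 : (A.card : ℝ) = A1.card + A2.card := by
      rw [← hu, card_union_of_disjoint hd]
      push_cast
      rfl
    rw [h3, h4]
    simp only [Formula.leaves]
    push_cast
    rw [mul_comm (A1.card : ℝ)] at h1
    rw [mul_comm (A2.card : ℝ)] at h2
    have h5 := cs h1 h2 (Nat.cast_nonneg _) (Nat.cast_nonneg _) (Nat.cast_nonneg _)
      (Nat.cast_nonneg _) (Nat.cast_nonneg _)
    calc _ ≤ _ := h5
      _ = _ := by ring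

/-- the average sensitivity of a formula is at most the square root of its size -/
theorem avg_sens (F : Formula I) :
    (∑ x, ((univ.filter fun j => F.eval (Y601.SSE.flip j x) ≠ F.eval x).card : ℝ)) ^ 2 ≤
      F.leaves * (2 ^ Fintype.card I) ^ 2 := by
  obtain ⟨A, hA⟩ : ∃ A : Finset (I → Bool), A = univ.filter fun x => F.eval x = true := ⟨_, rfl⟩
  obtain ⟨B, hB⟩ : ∃ B : Finset (I → Bool), B = univ.filter fun x => ¬ F.eval x = true :=
    ⟨_, rfl⟩
  have hu : A ∪ B = univ := by rw [hA, hB]; exact filter_union_filter_not_eq _ _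
  have hd : Disjoint A B := by rw [hA, hB]; exact disjoint_filter_filter_not _ _ _
  have h1 : ∑ x, (univ.filter fun j => F.eval (Y601.SSE.flip j x) ≠ F.eval x).card =
      edg A B + edg B A := by
    rw [← hu, sum_union hd]
    congr 1
    · unfold edg
      refine sum_congr rfl fun x hx => ?_
      congr 1
      apply filter_congr
      intro j _
      rw [hA, mem_filter] at hx
      rw [hx.2, hB, mem_filter]
      simp
    · unfold edg
      refine sum_congr rfl fun x hx => ?_
      congr 1
      apply filter_congr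
      intro j _
      rw [hB, mem_filter] at hx
      have h2 : F.eval x = false := by simpa using hx.2
      rw [h2, hA, mem_filter]
      simp
  have h2 : (∑ x, ((univ.filter fun j => F.eval (Y601.SSE.flip j x) ≠ F.eval x).card : ℝ)) =
      2 * edg A B := by
    have : ((∑ x, (univ.filter fun j =>
        F.eval (Y601.SSE.flip j x) ≠ F.eval x).card : ℕ) : ℝ) = 2 * edg A B := by
      rw [h1, edg_comm B A]
      push_cast
      ring
    rw [← this]
    push_cast
    rfl
  have h3 := khrapchenko F A B (fun x hx => by rw [hA, mem_filter] at hx; exact hx.2)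
    (fun x hx => by rw [hB, mem_filter] at hx; simpa using hx.2)
  have h4 : (A.card : ℝ) + B.card = 2 ^ Fintype.card I := by
    have : A.card + B.card = Fintype.card (I → Bool) := by
      rw [← card_union_of_disjoint hd, hu, card_univ]
    rw [Fintype.card_fun, Fintype.card_bool] at this
    exact_mod_cast this
  rw [h2, ← h4]
  have h5 : 4 * ((A.card : ℝ) * B.card) ≤ (A.card + B.card) ^ 2 := by
    nlinarith [sq_nonneg ((A.card : ℝ) - B.card)]
  have h6 : (0 : ℝ) ≤ F.leaves := Nat.cast_nonneg _
  have e1 : (2 * (edg A B : ℝ)) ^ 2 = 4 * (edg A B : ℝ) ^ 2 := by ring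
  have e2 : (F.leaves : ℝ) * (4 * ((A.card : ℝ) * B.card)) ≤
      F.leaves * ((A.card : ℝ) + B.card) ^ 2 := mul_le_mul_of_nonneg_left h5 h6
  rw [e1]
  linarith

variable {U V : Type} {q M N B : ℕ}

/-- reductions computed by small formulas -/
theorem form_main (hq : 1 ≤ q) (hM : 1 ≤ M) (hB : 1 ≤ B)
    (dec : Fin M → (Fin B → Bool) → Con U V q) (F : Fin M → Fin B → Formula (Fin N)) {L : ℕ}
    (hL : ∀ l b, (F l b).leaves ≤ L) {ε δ : ℝ} (hw : ε + δ < 1)
    (hyes : ∀ x : Fin N → Bool, ¬ Odd (univ.filter fun i => x i = true).card →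
      Yes ε fun l => some (dec l fun b => (F l b).eval x))
    (hno : ∀ x : Fin N → Bool, Odd (univ.filter fun i => x i = true).card →
      No δ fun l => some (dec l fun b => (F l b).eval x)) :
    ((1 - ε - δ) * N / B) ^ 2 ≤ L := by
  obtain ⟨G, hG⟩ : ∃ G : (Fin N → Bool) → Game U V q M,
    G = fun x l => some (dec l fun b => (F l b).eval x) := ⟨_, rfl⟩
  obtain ⟨w, hwd⟩ : ∃ w, w = 1 - ε - δ := ⟨_, rfl⟩
  rw [← hwd]
  have hw0 : 0 < w := by rw [hwd]; linarith
  have hB0 : (1 : ℝ) ≤ B := by exact_mod_cast hB
  have hM0 : (1 : ℝ) ≤ M := by exact_mod_cast hM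
  obtain ⟨n2, hn2⟩ : ∃ n2 : ℝ, n2 = 2 ^ N := ⟨_, rfl⟩
  have hn20 : 0 < n2 := by rw [hn2]; positivity
  have hcard : ((univ : Finset (Fin N → Bool)).card : ℝ) = n2 := by
    rw [card_univ, Fintype.card_fun, Fintype.card_bool, hn2, Fintype.card_fin]
    push_cast
    rfl
  have hsize : ∀ x, size (G x) = M := by
    intro x
    rw [size_eq, hG]
    simp
  -- a flip changes many slots
  have hflip : ∀ x j, w * M ≤ dif (G x) (G (Y601.SSE.flip j x)) := by
    intro x j
    have h1 := lip_aux hq (G x) (G (Y601.SSE.flip j x)) (by rw [hsize, hsize])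
    have h2 := Y601.SSE.odd_flip j x
    have h3 : w ≤ |val (G x) - val (G (Y601.SSE.flip j x))| := by
      by_cases hodd : Odd (univ.filter fun i => x i = true).card
      · have h4 : ¬ Odd (univ.filter fun i => Y601.SSE.flip j x i = true).card := by
          rw [h2]; exact not_not.2 hodd
        have h5 := no_val hq (hno x hodd)
        have h6 := yes_val (hyes _ h4)
        rw [abs_sub_comm]
        refine le_trans ?_ (le_abs_self _)
        rw [hG, hwd]
        simp only
        linarith
      · have h4 : Odd (univ.filter fun i => Y601.SSE.flip j x i = true).card := h2.2 hodd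
        have h5 := no_val hq (hno _ h4)
        have h6 := yes_val (hyes x hodd)
        refine le_trans ?_ (le_abs_self _)
        rw [hG, hwd]
        simp only
        linarith
    have h4 := h3.trans h1
    unfold los at h4
    rw [hsize, le_div_iff₀ (by linarith)] at h4
    exact h4
  -- the number of changes
  have hsl : ∀ l, ∑ x, ∑ j, (if G x l ≠ G (Y601.SSE.flip j x) l then (1 : ℝ) else 0) ≤
      B * (Real.sqrt L * n2) := by
    intro l
    have hb : ∀ b : Fin B, ∑ x, ∑ j, (if (F l b).eval (Y601.SSE.flip j x) ≠ (F l b).eval x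
        then (1 : ℝ) else 0) ≤ Real.sqrt L * n2 := by
      intro b
      have h1 := avg_sens (F l b)
      have h2 : (∑ x, ((univ.filter fun j =>
          (F l b).eval (Y601.SSE.flip j x) ≠ (F l b).eval x).card : ℝ)) =
          ∑ x, ∑ j, (if (F l b).eval (Y601.SSE.flip j x) ≠ (F l b).eval x
            then (1 : ℝ) else 0) := by
        refine sum_congr rfl fun x _ => ?_
        rw [card_filter]
        push_cast
        rfl
      rw [h2, Fintype.card_fin, ← hn2] at h1
      have h3 : ((F l b).leaves : ℝ) ≤ L := by exact_mod_cast hL l b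
      have h4 : (Real.sqrt L * n2) ^ 2 = L * n2 ^ 2 := by
        rw [mul_pow, Real.sq_sqrt (Nat.cast_nonneg _)]
      apply le_of_sq_le_sq _ (by positivity)
      rw [h4]
      exact h1.trans (mul_le_mul_of_nonneg_right h3 (by positivity))
    have h5 : ∀ x j, (if G x l ≠ G (Y601.SSE.flip j x) l then (1 : ℝ) else 0) ≤
        ∑ b, (if (F l b).eval (Y601.SSE.flip j x) ≠ (F l b).eval x then (1 : ℝ) else 0) := by
      intro x j
      have hnn : ∀ b ∈ (univ : Finset (Fin B)), (0 : ℝ) ≤
          (if (F l b).eval (Y601.SSE.flip j x) ≠ (F l b).eval x then (1 : ℝ) else 0) := by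
        intro b _
        split_ifs <;> norm_num
      by_cases h6 : G x l ≠ G (Y601.SSE.flip j x) l
      · rw [if_pos h6]
        have h7 : ∃ b, (F l b).eval (Y601.SSE.flip j x) ≠ (F l b).eval x := by
          by_contra hcon
          push Not at hcon
          apply h6
          rw [hG]
          show some (dec l _) = some (dec l _)
          congr 2
          funext b
          exact (hcon b).symm
        obtain ⟨b, hb⟩ := h7
        refine le_trans ?_ (single_le_sum hnn (mem_univ b))
        rw [if_pos hb]
      · rw [if_neg h6]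
        exact sum_nonneg hnn
    calc _ ≤ ∑ x, ∑ j, ∑ b, (if (F l b).eval (Y601.SSE.flip j x) ≠ (F l b).eval x
          then (1 : ℝ) else 0) := sum_le_sum fun x _ => sum_le_sum fun j _ => h5 x j
      _ = ∑ b, ∑ x, ∑ j, (if (F l b).eval (Y601.SSE.flip j x) ≠ (F l b).eval x
          then (1 : ℝ) else 0) := by
          rw [sum_comm (s := univ (α := Fin B))]
          refine sum_congr rfl fun x _ => ?_
          rw [sum_comm]
      _ ≤ ∑ _b : Fin B, Real.sqrt L * n2 := sum_le_sum fun b _ => hb b
      _ = B * (Real.sqrt L * n2) := by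
          rw [sum_const, card_univ, Fintype.card_fin, nsmul_eq_mul]
  have htot : ∑ x : Fin N → Bool, ∑ j : Fin N, (dif (G x) (G (Y601.SSE.flip j x)) : ℝ) ≤
      M * (B * (Real.sqrt L * n2)) := by
    have h1 : ∀ x : Fin N → Bool, ∀ j : Fin N, (dif (G x) (G (Y601.SSE.flip j x)) : ℝ) ≤
        ∑ l, (if G x l ≠ G (Y601.SSE.flip j x) l then (1 : ℝ) else 0) := by
      intro x j
      unfold dif
      rw [card_filter]
      push_cast
      refine sum_le_sum fun l _ => ?_
      by_cases h : G x l ≠ G (Y601.SSE.flip j x) l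
      · rw [if_pos h]
        split_ifs <;> norm_num
      · rw [if_neg h, if_neg]
        exact fun h' => h h'.2
    calc _ ≤ ∑ x : Fin N → Bool, ∑ j : Fin N,
          ∑ l, (if G x l ≠ G (Y601.SSE.flip j x) l then (1 : ℝ) else 0) :=
          sum_le_sum fun x _ => sum_le_sum fun j _ => h1 x j
      _ = ∑ l, ∑ x, ∑ j, (if G x l ≠ G (Y601.SSE.flip j x) l then (1 : ℝ) else 0) := by
          rw [sum_comm (s := univ (α := Fin M))]
          refine sum_congr rfl fun x _ => ?_
          rw [sum_comm]
      _ ≤ ∑ _l : Fin M, B * (Real.sqrt L * n2) := sum_le_sum fun l _ => hsl l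
      _ = M * (B * (Real.sqrt L * n2)) := by
          rw [sum_const, card_univ, Fintype.card_fin, nsmul_eq_mul]
  have hlow : n2 * (N * (w * M)) ≤
      ∑ x : Fin N → Bool, ∑ j : Fin N, (dif (G x) (G (Y601.SSE.flip j x)) : ℝ) := by
    calc n2 * (N * (w * M)) = ∑ _x : Fin N → Bool, ∑ _j : Fin N, w * M := by
          rw [sum_const, sum_const, card_univ (α := Fin N), Fintype.card_fin, nsmul_eq_mul,
            nsmul_eq_mul, hcard]
      _ ≤ _ := sum_le_sum fun x _ => sum_le_sum fun j _ => hflip x j
  have hfin : N * w ≤ B * Real.sqrt L := by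
    have h1 : (n2 * M) * (N * w) ≤ (n2 * M) * (B * Real.sqrt L) := by
      calc (n2 * M) * (N * w) = n2 * (N * (w * M)) := by ring
        _ ≤ _ := hlow
        _ ≤ _ := htot
        _ = _ := by ring
    exact le_of_mul_le_mul_left h1 (by positivity)
  have hfin2 : w * N / B ≤ Real.sqrt L := by
    rw [div_le_iff₀ (by linarith)]
    linarith
  calc (w * N / B) ^ 2 ≤ (Real.sqrt L) ^ 2 := pow_le_pow_left₀ (by positivity) hfin2 2
    _ = L := Real.sq_sqrt (Nat.cast_nonneg _)

end

end Pool.Agent.N587.UG
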