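import Pool.Agent.N587.UG.Defs

set_option autoImplicit false

/-!
The value of a game changes little if few slots are changed.
-/

namespace Pool.Agent.N587.UG

open Finset

variable {U V : Type} {q M : ℕ}

open scoped Classical

/-- the slots of `G` which are not empty and which are different in `G'` -/
noncomputable def dif (G G' : Game U V q M) : ℕ :=
  (univ.filter fun l => G l ≠ none ∧ G l ≠ G' l).card

theorem size_eq (G : Game U V q M) : size G = (univ.filter fun l => G l ≠ none).card := by
  unfold size
  congr!

theorem nsat_eq (G : Game U V q M) (f : U → Fin q) (g : V → Fin q) :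
    nsat G f g = (univ.filter fun l => ∃ c, G l = some c ∧ c.2.2 (f c.1) = g c.2.1).card := by
  unfold nsat
  congr!

theorem nsat_le_size (G : Game U V q M) (f : U → Fin q) (g : V → Fin q) :
    nsat G f g ≤ size G := by
  rw [nsat_eq, size_eq]
  apply card_le_card
  intro l hl
  rw [mem_filter] at hl ⊢
  obtain ⟨c, hc, _⟩ := hl.2
  exact ⟨hl.1, by rw [hc]; simp⟩

theorem nsat_le (G G' : Game U V q M) (f : U → Fin q) (g : V → Fin q) :
    nsat G f g ≤ nsat G' f g + dif G G' := by
  rw [nsat_eq, nsat_eq]
  unfold dif
  refine le_trans (card_le_card ?_) (card_union_le _ _)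
  intro l hl
  rw [mem_filter] at hl
  obtain ⟨c, hc, hs⟩ := hl.2
  rw [mem_union, mem_filter, mem_filter]
  by_cases h : G l = G' l
  · exact Or.inl ⟨mem_univ _, c, by rw [← h, hc], hs⟩
  · exact Or.inr ⟨mem_univ _, by rw [hc]; simp, h⟩

theorem nun_le (G G' : Game U V q M) (f : U → Fin q) (g : V → Fin q) :
    size G + nsat G' f g ≤ size G' + nsat G f g + dif G G' := by
  have key : ∀ H : Game U V q M, size H = nsat H f g +
      (univ.filter fun l => ∃ c, H l = some c ∧ ¬ c.2.2 (f c.1) = g c.2.1).card := by
    intro H
    rw [size_eq, nsat_eq, ← card_union_of_disjoint]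
    · congr 1
      ext l
      simp only [mem_filter, mem_univ, true_and, mem_union]
      constructor
      · intro h
        obtain ⟨c, hc⟩ := Option.ne_none_iff_exists'.1 h
        by_cases hs : c.2.2 (f c.1) = g c.2.1
        · exact Or.inl ⟨c, hc, hs⟩
        · exact Or.inr ⟨c, hc, hs⟩
      · rintro (⟨c, hc, _⟩ | ⟨c, hc, _⟩) <;> rw [hc] <;> simp
    · rw [disjoint_left]
      intro l h1 h2
      simp only [mem_filter, mem_univ, true_and] at h1 h2
      obtain ⟨c, hc, hs⟩ := h1
      obtain ⟨c', hc', hs'⟩ := h2
      rw [hc] at hc'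
      exact hs' (by rw [← Option.some.inj hc']; exact hs)
  have h1 : (univ.filter fun l => ∃ c, G l = some c ∧ ¬ c.2.2 (f c.1) = g c.2.1).card ≤
      (univ.filter fun l => ∃ c, G' l = some c ∧ ¬ c.2.2 (f c.1) = g c.2.1).card + dif G G' := by
    unfold dif
    refine le_trans (card_le_card ?_) (card_union_le _ _)
    intro l hl
    rw [mem_filter] at hl
    obtain ⟨c, hc, hs⟩ := hl.2
    rw [mem_union, mem_filter, mem_filter]
    by_cases h : G l = G' l
    · exact Or.inl ⟨mem_univ _, c, by rw [← h, hc], hs⟩
    · exact Or.inr ⟨mem_univ _, by rw [hc]; simp, h⟩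
  have h2 := key G
  have h3 := key G'
  omega

/-- the largest number of satisfied constraints -/
noncomputable def best (G : Game U V q M) : ℕ :=
  sSup {n | ∃ (f : U → Fin q) (g : V → Fin q), n = nsat G f g}

theorem best_bdd (G : Game U V q M) :
    BddAbove {n | ∃ (f : U → Fin q) (g : V → Fin q), n = nsat G f g} := by
  refine ⟨size G, ?_⟩
  rintro n ⟨f, g, rfl⟩
  exact nsat_le_size G f g

theorem nsat_le_best (G : Game U V q M) (f : U → Fin q) (g : V → Fin q) : nsat G f g ≤ best G :=
  le_csSup (best_bdd G) ⟨f, g, rfl⟩

theorem exists_best (hq : 1 ≤ q) (G : Game U V q M) :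
    ∃ (f : U → Fin q) (g : V → Fin q), best G = nsat G f g := by
  have hne : {n | ∃ (f : U → Fin q) (g : V → Fin q), n = nsat G f g}.Nonempty :=
    ⟨_, fun _ => ⟨0, hq⟩, fun _ => ⟨0, hq⟩, rfl⟩
  exact Nat.sSup_mem hne (best_bdd G)

theorem best_le_size (hq : 1 ≤ q) (G : Game U V q M) : best G ≤ size G := by
  obtain ⟨f, g, h⟩ := exists_best hq G
  rw [h]
  exact nsat_le_size G f g

theorem best_le (hq : 1 ≤ q) (G G' : Game U V q M) : best G ≤ best G' + dif G G' := by
  obtain ⟨f, g, h⟩ := exists_best hq G
  have h1 := nsat_le G G' f g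
  have h2 := nsat_le_best G' f g
  omega

theorem worst_le (hq : 1 ≤ q) (G G' : Game U V q M) :
    size G + best G' ≤ size G' + best G + dif G G' := by
  obtain ⟨f, g, h⟩ := exists_best hq G'
  have h1 := nun_le G G' f g
  have h2 := nsat_le_best G f g
  omega

/-- the value -/
noncomputable def val (G : Game U V q M) : ℝ := (best G : ℝ) / size G

theorem val_nonneg (G : Game U V q M) : 0 ≤ val G := by unfold val; positivity

/-- the fraction of the constraints of `G` which are lost in `G'` -/
noncomputable def los (G G' : Game U V q M) : ℝ := (dif G G' : ℝ) / size G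

theorem los_nonneg (G G' : Game U V q M) : 0 ≤ los G G' := by unfold los; positivity

theorem lip_aux (hq : 1 ≤ q) (G G' : Game U V q M) (h : size G' ≤ size G) :
    |val G - val G'| ≤ los G G' := by
  have h1 := best_le hq G G'
  have h2 := worst_le hq G G'
  have h3 := best_le_size hq G
  have h4 := best_le_size hq G'
  unfold val los
  have h1' : (best G : ℝ) ≤ best G' + dif G G' := by exact_mod_cast h1
  have h2' : (size G : ℝ) + best G' ≤ size G' + best G + dif G G' := by exact_mod_cast h2
  have h3' : (best G : ℝ) ≤ size G := by exact_mod_cast h3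
  have h4' : (best G' : ℝ) ≤ size G' := by exact_mod_cast h4
  have h5' : (size G' : ℝ) ≤ size G := by exact_mod_cast h
  have hb0 : (0 : ℝ) ≤ best G := Nat.cast_nonneg _
  have hb0' : (0 : ℝ) ≤ best G' := Nat.cast_nonneg _
  have hd0 : (0 : ℝ) ≤ dif G G' := Nat.cast_nonneg _
  rcases Nat.eq_zero_or_pos (size G') with hz | hz
  · have hb' : best G' = 0 := by omega
    rw [hz, hb']
    simp only [Nat.cast_zero, div_zero, sub_zero]
    rw [abs_of_nonneg (by positivity)]
    rcases Nat.eq_zero_or_pos (size G) with hg | hg
    · rw [hg]; simp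
    · have hg' : (0 : ℝ) < size G := by exact_mod_cast hg
      rw [hb'] at h1'
      apply div_le_div_of_nonneg_right _ hg'.le
      simpa using h1'
  · have hz' : (0 : ℝ) < size G' := by exact_mod_cast hz
    have hg' : (0 : ℝ) < size G := lt_of_lt_of_le hz' h5'
    rw [abs_le]
    constructor
    · have e1 : (size G' - best G' : ℝ) / size G ≤ (size G' - best G') / size G' :=
        div_le_div_of_nonneg_left (by linarith) hz' h5'
      have e2 : (size G - best G : ℝ) / size G ≤ (size G' - best G' + dif G G') / size G :=
        div_le_div_of_nonneg_right (by linarith) hg'.le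
      have e3 : (size G - best G : ℝ) / size G = 1 - best G / size G := by
        field_simp
      have e4 : (size G' - best G' : ℝ) / size G' = 1 - best G' / size G' := by
        field_simp
      have e5 : (size G' - best G' + dif G G' : ℝ) / size G =
          (size G' - best G') / size G + dif G G' / size G := by ring
      linarith
    · have e1 : (best G' : ℝ) / size G ≤ best G' / size G' :=
        div_le_div_of_nonneg_left hb0' hz' h5'
      have e2 : (best G : ℝ) / size G ≤ (best G' + dif G G') / size G :=
        div_le_div_of_nonneg_right h1' hg'.le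
      have e5 : (best G' + dif G G' : ℝ) / size G = best G' / size G + dif G G' / size G := by
        ring
      linarith

/-- the value is a Lipschitz function -/
theorem lip (hq : 1 ≤ q) (G G' : Game U V q M) :
    |val G - val G'| ≤ los G G' + los G' G := by
  rcases le_total (size G') (size G) with h | h
  · have := lip_aux hq G G' h
    have := los_nonneg G' G
    linarith
  · have h1 := lip_aux hq G' G h
    rw [abs_sub_comm] at h1
    have := los_nonneg G G'
    linarith

theorem yes_val {ε : ℝ} {G : Game U V q M} (h : Yes ε G) : 1 - ε ≤ val G := by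
  obtain ⟨h0, f, g, h1⟩ := h
  have h2 : (nsat G f g : ℝ) ≤ best G := by exact_mod_cast nsat_le_best G f g
  have h3 : (0 : ℝ) < size G := by exact_mod_cast h0
  unfold val
  rw [le_div_iff₀ h3]
  linarith

theorem no_val (hq : 1 ≤ q) {δ : ℝ} {G : Game U V q M} (h : No δ G) : val G ≤ δ := by
  obtain ⟨h0, h1⟩ := h
  obtain ⟨f, g, h2⟩ := exists_best hq G
  have h3 : (0 : ℝ) < size G := by exact_mod_cast h0
  unfold val
  rw [div_le_iff₀ h3, h2]
  exact h1 f g

end Pool.Agent.N587.UG
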