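import Pool.Agent.N587.UG.Stage
import Pool.Agent.N587.UG.Ac

set_option autoImplicit false
set_option linter.unusedSectionVars false

/-!
The lower bound for Turing reductions of small depth.
-/

namespace Pool.Agent.N587.UG

open Finset DomAC0 H568R2 Pool.Agent.TH163.AC3

open scoped Classical

variable {U V : Type} {q M N k B : ℕ}

theorem core (hq : 1 ≤ q) (hk : 1 ≤ k) (hB : 1 ≤ B) (R : OracleCircuit N k M B U V q) {h : ℕ}
    (hR : R.Levels h) (hac : R.Acyclic) {ε δ : ℝ} (hε : 0 ≤ ε) (hδ : 0 ≤ δ) (hw : ε + δ < 1)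
    (hpar : R.Parity ε δ) {s : ℕ} (hs : 1 ≤ s)
    (hcond : 2 ^ k * (h * R.C.size * (24 * s) ^ h) ≤ 2 ^ s) :
    (1 - ε - δ) * N ≤ (32 * s) ^ (h + 1) * (k ^ 2 * B) := by
  have hw' : 0 < 1 - ε - δ := by linarith
  have hs0 : (1 : ℝ) ≤ s := by exact_mod_cast hs
  have hk0 : (1 : ℝ) ≤ k := by exact_mod_cast hk
  have hB0 : (1 : ℝ) ≤ B := by exact_mod_cast hB
  rcases Nat.eq_zero_or_pos N with hN | hN
  · subst hN
    simp only [Nat.cast_zero, mul_zero]
    positivity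
  obtain ⟨ρ, hρ, hst⟩ := shal_restr R.C (by simpa using hN) hs h (by simpa using hcond)
  rw [Fintype.card_fin] at hst
  obtain ⟨J, hJ⟩ : ∃ J : Finset (Fin N), J = univ.filter fun i => ρ i = none := ⟨_, rfl⟩
  rw [← hJ] at hst
  obtain ⟨Q, hQd⟩ : ∃ Q : Fin k → (Fin N → Bool) → (Fin k → Bool) → Game U V q M,
    Q = fun i x a => R.query i (ov ρ x) a := ⟨_, rfl⟩
  have hQ : ∀ i x a a', (∀ j, j < i → a j = a' j) → Q i x a = Q i x a' := by
    intro i x a a' haa
    rw [hQd]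
    exact hac i (ov ρ x) a a' haa
  have hsens : ∀ i a l x,
      (J.filter fun j => Q i (Y601.SSE.flip j x) a l ≠ Q i x a l).card ≤ B * s := by
    intro i a l x
    have hsub : (J.filter fun j => Q i (Y601.SSE.flip j x) a l ≠ Q i x a l) ⊆
        univ.biUnion fun b : Fin B => J.filter fun j =>
          (rs (fun x => R.C.nodeVal (Sum.elim x a) (R.wire i l b)) ρ) (Y601.SSE.flip j x) ≠
          (rs (fun x => R.C.nodeVal (Sum.elim x a) (R.wire i l b)) ρ) x := by
      intro j hj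
      rw [mem_filter] at hj
      rw [mem_biUnion]
      by_contra hcon
      push Not at hcon
      apply hj.2
      rw [hQd]
      show R.dec l _ = R.dec l _
      congr 1
      funext b
      have h1 := hcon b (mem_univ b)
      rw [mem_filter, not_and, not_not] at h1
      exact h1 hj.1
    refine (card_le_card hsub).trans (card_biUnion_le.trans ?_)
    have h2 : ∀ b ∈ (univ : Finset (Fin B)), (J.filter fun j =>
          (rs (fun x => R.C.nodeVal (Sum.elim x a) (R.wire i l b)) ρ) (Y601.SSE.flip j x) ≠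
          (rs (fun x => R.C.nodeVal (Sum.elim x a) (R.wire i l b)) ρ) x).card ≤ s := by
      intro b _
      exact Y601.SSE.sens_le (shal_node R.C a hs (hρ a) (R.wire i l b) (hR.2 i l b)) J x
    refine (sum_le_card_nsmul _ _ _ h2).trans ?_
    rw [card_univ, Fintype.card_fin, smul_eq_mul]
  obtain ⟨A, hA, hsum⟩ := stages hq hQ hw' J hsens k le_rfl
  have hyn : ∀ G : Game U V q M, Yes ε G → No δ G → False := by
    intro G h1 h2
    have := yes_val h1
    have := no_val hq h2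
    linarith
  have hout : ∀ x, (R.C.eval (Sum.elim (ov ρ x) (A x)) = true ↔
      Odd (univ.filter fun i => ov ρ x i = true).card) := by
    intro x
    obtain ⟨O, hO1, hO2, hO3⟩ := good_oracle (hA x) hyn
    apply hpar O hO1 hO2 (ov ρ x) (A x)
    intro i
    rw [hO3 i, hQd]
  have hsame : ∀ x, ((J.filter fun j => A (Y601.SSE.flip j x) = A x).card : ℝ) ≤ s := by
    intro x
    have h1 := Y601.SSE.sens_le (shal_node R.C (A x) hs (hρ (A x)) R.C.output hR.1) J x
    have h2 : (J.filter fun j => A (Y601.SSE.flip j x) = A x) ⊆ (J.filter fun j =>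
        (rs (fun y => R.C.nodeVal (Sum.elim y (A x)) R.C.output) ρ) (Y601.SSE.flip j x) ≠
        (rs (fun y => R.C.nodeVal (Sum.elim y (A x)) R.C.output) ρ) x) := by
      intro j hj
      rw [mem_filter] at hj ⊢
      refine ⟨hj.1, fun heq => ?_⟩
      have hj2 : ρ j = none := by
        have := hj.1
        rw [hJ, mem_filter] at this
        exact this.2
      have e1 := hout x
      have e2 := hout (Y601.SSE.flip j x)
      rw [hj.2] at e2
      have e3 : R.C.eval (Sum.elim (ov ρ (Y601.SSE.flip j x)) (A x)) =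
          R.C.eval (Sum.elim (ov ρ x) (A x)) := heq
      rw [e3] at e2
      have e4 : ov ρ (Y601.SSE.flip j x) = Y601.SSE.flip j (ov ρ x) :=
        Y601.SSE.ov_flip ρ j hj2 x
      have e5 := Y601.SSE.odd_flip j (ov ρ x)
      have e6 : (Odd (univ.filter fun i => ov ρ (Y601.SSE.flip j x) i = true).card) ↔
          ¬ Odd (univ.filter fun i => ov ρ x i = true).card := by
        rw [e4]
        exact e5
      rw [e6] at e2
      rw [e1] at e2
      exact iff_not_self e2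
    exact_mod_cast (card_le_card h2).trans h1
  -- counting
  obtain ⟨n2, hn2⟩ : ∃ n2 : ℝ, n2 = 2 ^ Fintype.card (Fin N) := ⟨_, rfl⟩
  have hcard : ((univ : Finset (Fin N → Bool)).card : ℝ) = n2 := by
    rw [card_univ, Fintype.card_fun, Fintype.card_bool, hn2]
    push_cast
    rfl
  have hn20 : 0 < n2 := by rw [hn2]; positivity
  have hpt : ∀ x ∈ (univ : Finset (Fin N → Bool)), (J.card : ℝ) ≤
      ∑ j ∈ J, (if A (Y601.SSE.flip j x) ≠ A x then (1 : ℝ) else 0) + s := by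
    intro x _
    have h1 := hsame x
    have h2 : ∑ j ∈ J, (if A (Y601.SSE.flip j x) ≠ A x then (1 : ℝ) else 0) =
        ((J.filter fun j => A (Y601.SSE.flip j x) ≠ A x).card : ℝ) := by
      rw [card_filter]
      push_cast
      rfl
    have h3 : ((J.filter fun j => A (Y601.SSE.flip j x) = A x).card : ℝ) +
        ((J.filter fun j => A (Y601.SSE.flip j x) ≠ A x).card : ℝ) = J.card := by
      exact_mod_cast card_filter_add_card_filter_not (s := J)
        fun j => A (Y601.SSE.flip j x) = A x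
    rw [h2]
    linarith
  have htot := sum_le_sum hpt
  rw [sum_add_distrib, sum_const, sum_const, nsmul_eq_mul, nsmul_eq_mul, hcard] at htot
  rw [← hn2] at hsum
  have hJle : (J.card : ℝ) ≤ k * (4 * k * (B * s : ℕ) + 2 * (B * s : ℕ) / (1 - ε - δ) + 1) + s := by
    have h1 : n2 * J.card ≤ n2 * (k * (4 * k * (B * s : ℕ) + 2 * (B * s : ℕ) / (1 - ε - δ) + 1) +
        s) := by
      calc n2 * (J.card : ℝ) ≤ _ := htot
        _ ≤ k * ((4 * k * (B * s : ℕ) + 2 * (B * s : ℕ) / (1 - ε - δ) + 1) * n2) + n2 * s := by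
            linarith
        _ = _ := by ring
    exact le_of_mul_le_mul_left h1 hn20
  push_cast at hJle
  -- arithmetic
  obtain ⟨w, hwd⟩ : ∃ w, w = 1 - ε - δ := ⟨_, rfl⟩
  rw [← hwd] at hw' hJle ⊢
  have hw1 : w ≤ 1 := by rw [hwd]; linarith
  have hwJ : w * J.card ≤ 8 * k ^ 2 * B * s := by
    have h1 := mul_le_mul_of_nonneg_left hJle hw'.le
    have h2 : w * (k * (4 * k * (B * s) + 2 * (B * s) / w + 1) + s) =
        w * (4 * k ^ 2 * (B * s) + k + s) + 2 * k * (B * s) := by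
      field_simp
      ring
    rw [h2] at h1
    have h3 : w * (4 * k ^ 2 * (B * s) + k + s) ≤ 1 * (4 * (k : ℝ) ^ 2 * (B * s) + k + s) :=
      mul_le_mul_of_nonneg_right hw1 (by positivity)
    have hBs : (1 : ℝ) ≤ B * s := one_le_mul_of_one_le_of_one_le hB0 hs0
    have hkk : (k : ℝ) ≤ k ^ 2 := by nlinarith
    have h4 : (k : ℝ) ≤ k ^ 2 * (B * s) := by
      calc (k : ℝ) ≤ k ^ 2 := hkk
        _ = k ^ 2 * 1 := by ring
        _ ≤ k ^ 2 * (B * s) := mul_le_mul_of_nonneg_left hBs (by positivity)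
    have h5 : (s : ℝ) ≤ k ^ 2 * (B * s) := by
      have e1 : (1 : ℝ) ≤ k ^ 2 := one_le_pow₀ hk0
      calc (s : ℝ) = 1 * (1 * s) := by ring
        _ ≤ k ^ 2 * (B * s) := by
          apply mul_le_mul e1 _ (by positivity) (by positivity)
          exact mul_le_mul_of_nonneg_right hB0 (by positivity)
    have h6 : (k : ℝ) * (B * s) ≤ k ^ 2 * (B * s) :=
      mul_le_mul_of_nonneg_right hkk (by positivity)
    calc w * (J.card : ℝ) ≤ _ := h1
      _ ≤ 1 * (4 * (k : ℝ) ^ 2 * (B * s) + k + s) + 2 * k * (B * s) := by linarith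
      _ ≤ 8 * (k ^ 2 * (B * s)) := by linarith
      _ = _ := by ring
  have hfin : w * N ≤ 4 * (24 * s) ^ h * (8 * k ^ 2 * B * s) := by
    calc w * (N : ℝ) ≤ w * (4 * (24 * s) ^ h * J.card) := mul_le_mul_of_nonneg_left hst hw'.le
      _ = 4 * (24 * s) ^ h * (w * J.card) := by ring
      _ ≤ 4 * (24 * s) ^ h * (8 * k ^ 2 * B * s) :=
        mul_le_mul_of_nonneg_left hwJ (by positivity)
  refine hfin.trans ?_
  have h7 : (24 * (s : ℝ)) ^ h ≤ (32 * s) ^ h := pow_le_pow_left₀ (by positivity) (by linarith) h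
  calc 4 * (24 * (s : ℝ)) ^ h * (8 * k ^ 2 * B * s)
      = (24 * (s : ℝ)) ^ h * (32 * s) * (k ^ 2 * B) := by ring
    _ ≤ (32 * (s : ℝ)) ^ h * (32 * s) * (k ^ 2 * B) := by
      apply mul_le_mul_of_nonneg_right _ (by positivity)
      exact mul_le_mul_of_nonneg_right h7 (by positivity)
    _ = (32 * s) ^ (h + 1) * (k ^ 2 * B) := by rw [pow_succ (32 * (s : ℝ)) h]

theorem exists_large' (h : ℕ) : ∃ Y0 : ℝ, 64 ≤ Y0 ∧ ∀ Y : ℝ, Y0 ≤ Y →
    h * Y ^ h * (2 : ℝ) ^ (Y / 100) ≤ 2 ^ (Y / 32 - 1) := by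
  obtain ⟨b, hb⟩ : ∃ b : ℝ, b = Real.log 2 * (1 / 32 - 1 / 100) := ⟨_, rfl⟩
  have hl : 0 < Real.log 2 := Real.log_pos (by norm_num)
  have hb0 : 0 < b := by rw [hb]; exact mul_pos hl (by norm_num)
  have h1 : Filter.Tendsto (fun Y : ℝ => h * ((b * Y) ^ h * Real.exp (-(b * Y))) / b ^ h)
      Filter.atTop (nhds (h * 0 / b ^ h)) := by
    have h2 := (Real.tendsto_pow_mul_exp_neg_atTop_nhds_zero h).comp
      (Filter.tendsto_id.const_mul_atTop hb0)
    exact (h2.const_mul (h : ℝ)).div_const _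
  rw [mul_zero, zero_div] at h1
  have h3 := h1.eventually (gt_mem_nhds (show (0 : ℝ) < 1 / 2 by norm_num))
  obtain ⟨Y1, hY1⟩ := Filter.eventually_atTop.1 h3
  refine ⟨max Y1 64, le_max_right _ _, fun Y hY => ?_⟩
  have h4 := (hY1 Y ((le_max_left _ _).trans hY)).le
  have hbh : 0 < b ^ h := by positivity
  have h5 : h * ((b * Y) ^ h * Real.exp (-(b * Y))) / b ^ h = h * Y ^ h * Real.exp (-(b * Y)) := by
    rw [mul_pow]
    field_simp
  rw [h5] at h4
  have h6 : (2 : ℝ) ^ (Y / 100) = Real.exp (-(b * Y)) * 2 ^ (Y / 32) := by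
    rw [Real.rpow_def_of_pos (by norm_num), Real.rpow_def_of_pos (by norm_num), ← Real.exp_add, hb]
    congr 1
    ring
  have h7 : (2 : ℝ) ^ (Y / 32 - 1) = 1 / 2 * 2 ^ (Y / 32) := by
    rw [Real.rpow_sub (by norm_num), Real.rpow_one]
    ring
  rw [h6, h7, ← mul_assoc]
  exact mul_le_mul_of_nonneg_right h4 (by positivity)

/-- Turing reductions of small depth from parity must be large or have many oracle gates -/
theorem main (h : ℕ) : ∃ X0 : ℝ, ∀ {q N k M B : ℕ} {U V : Type}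
    (R : OracleCircuit N k M B U V q) {ε δ : ℝ}, 1 ≤ q → 1 ≤ k → 1 ≤ B → R.Levels h → R.Acyclic →
    0 ≤ ε → 0 ≤ δ → ε + δ < 1 → R.Parity ε δ →
    X0 ≤ (1 - ε - δ) * N / (k ^ 2 * B) →
    (2 : ℝ) ^ (((1 - ε - δ) * N / (k ^ 2 * B)) ^ (1 / (h + 1 : ℝ)) / 100) ≤ 2 ^ k * R.C.size := by
  obtain ⟨Y0, hY64, hY0⟩ := exists_large' h
  refine ⟨Y0 ^ (h + 1), ?_⟩
  intro q N k M B U V R ε δ hq hk hB hR hac hε hδ hw hpar hX
  obtain ⟨X, hXd⟩ : ∃ X : ℝ, X = (1 - ε - δ) * N / (k ^ 2 * B) := ⟨_, rfl⟩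
  rw [← hXd] at hX ⊢
  obtain ⟨Y, hYd⟩ : ∃ Y : ℝ, Y = X ^ (1 / (h + 1 : ℝ)) := ⟨_, rfl⟩
  rw [← hYd]
  have hk0 : (1 : ℝ) ≤ k := by exact_mod_cast hk
  have hB0 : (1 : ℝ) ≤ B := by exact_mod_cast hB
  have hY00 : (0 : ℝ) ≤ Y0 := by linarith
  have hXpos : 0 ≤ X := le_trans (by positivity) hX
  have hYX : Y ^ (h + 1) = X := by
    rw [hYd, ← Real.rpow_natCast, ← Real.rpow_mul hXpos]
    push_cast
    rw [one_div, inv_mul_cancel₀ (by positivity), Real.rpow_one]
  have hYn : 0 ≤ Y := by rw [hYd]; exact Real.rpow_nonneg hXpos _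
  have hYY : Y0 ≤ Y := by
    by_contra hcon
    push Not at hcon
    have := pow_lt_pow_left₀ hcon hYn (Nat.succ_ne_zero h)
    rw [Nat.succ_eq_add_one, hYX] at this
    linarith
  have hY := hY0 Y hYY
  by_contra hcon
  push Not at hcon
  obtain ⟨s, hs⟩ : ∃ s : ℕ, s = ⌈Y / 32⌉₊ - 1 := ⟨_, rfl⟩
  have hc1 : Y / 32 ≤ ⌈Y / 32⌉₊ := Nat.le_ceil _
  have hc2 : (⌈Y / 32⌉₊ : ℝ) < Y / 32 + 1 := Nat.ceil_lt_add_one (by positivity)
  have hc3 : 2 ≤ ⌈Y / 32⌉₊ := by
    have : (2 : ℝ) ≤ ⌈Y / 32⌉₊ := le_trans (by linarith) hc1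
    exact_mod_cast this
  have hs1 : 1 ≤ s := by omega
  have hsr : (s : ℝ) = ⌈Y / 32⌉₊ - 1 := by
    rw [hs, Nat.cast_sub (by omega), Nat.cast_one]
  have hs2 : 32 * (s : ℝ) < Y := by rw [hsr]; linarith
  have hs3 : Y / 32 - 1 ≤ s := by rw [hsr]; linarith
  have hlt : (32 * (s : ℝ)) ^ (h + 1) < X := by
    rw [← hYX]
    exact pow_lt_pow_left₀ hs2 (by positivity) (Nat.succ_ne_zero h)
  have hcond : 2 ^ k * (h * R.C.size * (24 * s) ^ h) ≤ 2 ^ s := by
    have h1 : ((2 ^ k * (h * R.C.size * (24 * s) ^ h) : ℕ) : ℝ) ≤ ((2 ^ s : ℕ) : ℝ) := by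
      push_cast
      have e1 : (24 * (s : ℝ)) ^ h ≤ Y ^ h :=
        pow_le_pow_left₀ (by positivity) (by nlinarith [Nat.cast_nonneg (α := ℝ) s]) h
      calc (2 : ℝ) ^ k * (h * R.C.size * (24 * s) ^ h)
          = h * (2 ^ k * R.C.size) * (24 * s) ^ h := by ring
        _ ≤ h * 2 ^ (Y / 100) * Y ^ h := by
            apply mul_le_mul _ e1 (by positivity) (by positivity)
            exact mul_le_mul_of_nonneg_left hcon.le (Nat.cast_nonneg _)
        _ = h * Y ^ h * 2 ^ (Y / 100) := by ring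
        _ ≤ 2 ^ (Y / 32 - 1) := hY
        _ ≤ (2 : ℝ) ^ (s : ℝ) := Real.rpow_le_rpow_of_exponent_le (by norm_num) hs3
        _ = 2 ^ s := Real.rpow_natCast _ _
    exact_mod_cast h1
  have hcore := core hq hk hB R hR hac hε hδ hw hpar hs1 hcond
  have hkB : (0 : ℝ) < k ^ 2 * B := by positivity
  have h9 : X ≤ (32 * s) ^ (h + 1) := by
    rw [hXd, div_le_iff₀ hkB]
    exact hcore
  linarith

end Pool.Agent.N587.UG
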