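import Pool.Agent.N587.UG.Cnt

set_option autoImplicit false
set_option linter.unusedSectionVars false

/-!
The construction of the answers, one oracle gate after the other.
-/

namespace Pool.Agent.N587.UG

open Finset

open scoped Classical

variable {I : Type} [Fintype I] [DecidableEq I] {k M q : ℕ} {U V : Type}

/-- few flips change whether two queries are equal -/
theorem coincide {T : ℕ} {J : Finset I} {x : I → Bool} {G G' : (I → Bool) → Game U V q M}
    (h1 : ∀ l, (J.filter fun j => G (Y601.SSE.flip j x) l ≠ G x l).card ≤ T)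
    (h2 : ∀ l, (J.filter fun j => G' (Y601.SSE.flip j x) l ≠ G' x l).card ≤ T)
    (hne : G x ≠ G' x) :
    (J.filter fun j => G (Y601.SSE.flip j x) = G' (Y601.SSE.flip j x)).card ≤ 2 * T := by
  obtain ⟨l, hl⟩ := Function.ne_iff.1 hne
  have hsub : (J.filter fun j => G (Y601.SSE.flip j x) = G' (Y601.SSE.flip j x)) ⊆
      (J.filter fun j => G (Y601.SSE.flip j x) l ≠ G x l) ∪
        (J.filter fun j => G' (Y601.SSE.flip j x) l ≠ G' x l) := by
    intro j hj
    rw [mem_filter] at hj
    rw [mem_union, mem_filter, mem_filter]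
    by_cases h : G (Y601.SSE.flip j x) l = G x l
    · right
      refine ⟨hj.1, fun h' => hl ?_⟩
      rw [← h, ← h', hj.2]
    · exact Or.inl ⟨hj.1, h⟩
  have := (card_le_card hsub).trans (card_union_le _ _)
  have h3 := h1 l
  have h4 := h2 l
  omega

/-- the average loss -/
theorem los_sum {T : ℕ} {J : Finset I} {x : I → Bool} {G : (I → Bool) → Game U V q M}
    (h1 : ∀ l, (J.filter fun j => G (Y601.SSE.flip j x) l ≠ G x l).card ≤ T) :
    ∑ j ∈ J, los (G x) (G (Y601.SSE.flip j x)) ≤ T := by
  have h2 : ∑ j ∈ J, dif (G x) (G (Y601.SSE.flip j x)) ≤ T * size (G x) := by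
    have e1 : ∀ j, dif (G x) (G (Y601.SSE.flip j x)) =
        ∑ l, if G x l ≠ none ∧ G x l ≠ G (Y601.SSE.flip j x) l then 1 else 0 := by
      intro j
      unfold dif
      rw [card_filter]
    rw [sum_congr rfl fun j _ => e1 j, sum_comm, size_eq, card_filter, mul_sum]
    refine sum_le_sum fun l _ => ?_
    by_cases hl : G x l ≠ none
    · rw [if_pos hl, mul_one]
      refine le_trans ?_ (h1 l)
      rw [card_filter]
      refine sum_le_sum fun j _ => ?_
      by_cases h : G (Y601.SSE.flip j x) l ≠ G x l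
      · rw [if_pos h]
        split_ifs <;> omega
      · rw [if_neg, if_neg h]
        rintro ⟨_, h'⟩
        exact h (fun h'' => h' h''.symm)
    · rw [if_neg hl, mul_zero, Nat.le_zero]
      apply sum_eq_zero
      intro j _
      rw [if_neg]
      exact fun h => hl h.1
  unfold los
  rw [← sum_div]
  have h3 : ((∑ j ∈ J, dif (G x) (G (Y601.SSE.flip j x)) : ℕ) : ℝ) ≤
      ((T * size (G x) : ℕ) : ℝ) := by exact_mod_cast h2
  push_cast at h3
  rcases Nat.eq_zero_or_pos (size (G x)) with h0 | h0
  · rw [h0]; simp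
  · have h0' : (0 : ℝ) < size (G x) := by exact_mod_cast h0
    rw [div_le_iff₀ h0']
    exact h3

theorem stage_step (hq : 1 ≤ q) {Q : Fin k → (I → Bool) → (Fin k → Bool) → Game U V q M}
    (hQ : ∀ i x a a', (∀ j, j < i → a j = a' j) → Q i x a = Q i x a') {ε δ : ℝ}
    (hw : 0 < 1 - ε - δ) (J : Finset I) {T : ℕ}
    (hsens : ∀ i a l x, (J.filter fun j => Q i (Y601.SSE.flip j x) a l ≠ Q i x a l).card ≤ T)
    (i0 : Fin k) (A : (I → Bool) → Fin k → Bool) (hA : ∀ x, Good Q ε δ i0.val x (A x)) :
    ∃ A' : (I → Bool) → Fin k → Bool, (∀ x, Good Q ε δ (i0.val + 1) x (A' x)) ∧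
      ∑ x, ∑ j ∈ J, (if A' (Y601.SSE.flip j x) ≠ A' x then (1 : ℝ) else 0) ≤
        ∑ x, ∑ j ∈ J, (if A (Y601.SSE.flip j x) ≠ A x then (1 : ℝ) else 0) +
          (4 * k * T + 2 * T / (1 - ε - δ) + 1) * 2 ^ Fintype.card I := by
  obtain ⟨w, hwd⟩ : ∃ w, w = 1 - ε - δ := ⟨_, rfl⟩
  rw [← hwd] at hw ⊢
  obtain ⟨R, hR⟩ : ∃ R, R = J.card + 1 := ⟨_, rfl⟩
  have hR1 : 1 ≤ R := by omega
  have hR0 : (0 : ℝ) < R := by exact_mod_cast hR1
  obtain ⟨n2, hn2⟩ : ∃ n2 : ℝ, n2 = 2 ^ Fintype.card I := ⟨_, rfl⟩
  have hcard : ((univ : Finset (I → Bool)).card : ℝ) = n2 := by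
    rw [card_univ, Fintype.card_fun, Fintype.card_bool, hn2]
    push_cast
    rfl
  -- the thresholds
  obtain ⟨th, hth⟩ : ∃ th : ℕ → ℝ, th = fun r : ℕ => δ + w * ((r : ℝ) + 1) / R := ⟨_, rfl⟩
  -- the event that the threshold is between the values
  obtain ⟨X, hX⟩ : ∃ X : ℕ → (I → Bool) → (I → Bool) → ℝ, X = fun r x y =>
      if A y = A x ∧ ¬ ((th r ≤ val (Q i0 x (A x))) ↔ (th r ≤ val (Q i0 y (A x))))
      then (1 : ℝ) else 0 := ⟨_, rfl⟩
  obtain ⟨F, hF⟩ : ∃ F : (I → Bool) → (I → Bool) → ℝ, F = fun x y =>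
      los (Q i0 x (A x)) (Q i0 y (A x)) := ⟨_, rfl⟩
  have hFsum : ∑ x, ∑ j ∈ J, F x (Y601.SSE.flip j x) ≤ T * n2 := by
    rw [← hcard, mul_comm, ← nsmul_eq_mul]
    apply sum_le_card_nsmul
    intro x _
    rw [hF]
    exact los_sum (G := fun y => Q i0 y (A x)) fun l => hsens i0 (A x) l x
  have hFsum' : ∑ x, ∑ j ∈ J, F (Y601.SSE.flip j x) x ≤ T * n2 := by
    rw [← sum_swap J F]
    exact hFsum
  have hXr : ∀ x y, ∑ r ∈ range R, X r x y ≤ R / w * (F x y + F y x) + 1 := by
    intro x y
    have hF0 : ∀ x y, 0 ≤ F x y := by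
      intro x y
      rw [hF]
      exact los_nonneg _ _
    have hF1 := hF0 x y
    have hF2 := hF0 y x
    by_cases hxy : A y = A x
    · have h1 := grid R hR1 δ w hw (val (Q i0 x (A x))) (val (Q i0 y (A x)))
      have h2 : ∑ r ∈ range R, X r x y = (((range R).filter fun r : ℕ =>
          ¬ ((δ + w * ((r : ℝ) + 1) / R ≤ val (Q i0 x (A x))) ↔
            (δ + w * ((r : ℝ) + 1) / R ≤ val (Q i0 y (A x))))).card : ℝ) := by
        rw [card_filter]
        push_cast
        apply sum_congr rfl
        intro r _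
        rw [hX, hth]
        simp only [hxy, true_and]
      rw [h2]
      have h3 : |val (Q i0 x (A x)) - val (Q i0 y (A x))| ≤ F x y + F y x := by
        rw [hF]
        have := lip hq (Q i0 x (A x)) (Q i0 y (A x))
        simp only [hxy]
        exact this
      refine h1.trans ?_
      have h4 : R * |val (Q i0 x (A x)) - val (Q i0 y (A x))| / w ≤
          R / w * (F x y + F y x) := by
        rw [div_mul_eq_mul_div]
        exact div_le_div_of_nonneg_right (mul_le_mul_of_nonneg_left h3 hR0.le) hw.le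
      linarith
    · have h2 : ∑ r ∈ range R, X r x y = 0 := by
        apply sum_eq_zero
        intro r _
        rw [hX]
        simp only [hxy, false_and, if_false]
      rw [h2]
      positivity
  -- a good threshold
  have htot : ∑ r ∈ range R, (∑ x, ∑ j ∈ J, X r x (Y601.SSE.flip j x)) ≤
      ∑ _r ∈ range R, (2 * T / w + 1) * n2 := by
    rw [sum_comm]
    have h1 : ∀ x ∈ (univ : Finset (I → Bool)), ∑ r ∈ range R, ∑ j ∈ J,
        X r x (Y601.SSE.flip j x) ≤
        R / w * (∑ j ∈ J, F x (Y601.SSE.flip j x) + ∑ j ∈ J, F (Y601.SSE.flip j x) x) +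
          J.card := by
      intro x _
      rw [sum_comm]
      refine (sum_le_sum fun j _ => hXr x (Y601.SSE.flip j x)).trans (le_of_eq ?_)
      rw [sum_add_distrib, ← mul_sum, sum_add_distrib, sum_const, nsmul_eq_mul, mul_one]
    refine (sum_le_sum h1).trans ?_
    rw [sum_add_distrib, ← mul_sum, sum_add_distrib, sum_const, sum_const, nsmul_eq_mul,
      nsmul_eq_mul, hcard, card_range]
    have hn20 : 0 ≤ n2 := by rw [hn2]; positivity
    have h2 : R / w * (∑ x, ∑ j ∈ J, F x (Y601.SSE.flip j x) +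
        ∑ x, ∑ j ∈ J, F (Y601.SSE.flip j x) x) ≤ R / w * (T * n2 + T * n2) :=
      mul_le_mul_of_nonneg_left (by linarith) (by positivity)
    have h3 : n2 * (J.card : ℝ) ≤ n2 * R := by
      apply mul_le_mul_of_nonneg_left _ hn20
      rw [hR]
      push_cast
      linarith
    calc _ ≤ R / w * (T * n2 + T * n2) + n2 * R := add_le_add h2 h3
      _ = R * ((2 * T / w + 1) * n2) := by ring
  obtain ⟨r, hr, hgood⟩ := exists_le_of_sum_le (nonempty_range_iff.2 (by omega)) htot
  rw [mem_range] at hr
  refine ⟨fun x => Function.update (A x) i0 (bit Q i0 (th r) x (A x)), ?_, ?_⟩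
  · intro x
    have h1 : (0 : ℝ) < ((r : ℝ) + 1) / R := by positivity
    have h2 : ((r : ℝ) + 1) / R ≤ 1 := by
      rw [div_le_one hR0]
      exact_mod_cast hr
    apply good_step hq hQ i0 (hA x)
    · rw [hth]
      show δ < δ + w * ((r : ℝ) + 1) / R
      rw [mul_div_assoc]
      have := mul_pos hw h1
      linarith
    · rw [hth]
      show δ + w * ((r : ℝ) + 1) / R ≤ 1 - ε
      rw [mul_div_assoc]
      have := mul_le_mul_of_nonneg_left h2 hw.le
      linarith
  · -- counting
    obtain ⟨P, hP⟩ : ∃ P : Fin k → (I → Bool) → (I → Bool) → ℝ, P = fun i x y =>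
        if A y = A x ∧ Q i x (A x) ≠ Q i0 x (A x) ∧ Q i y (A x) = Q i0 y (A x)
        then (1 : ℝ) else 0 := ⟨_, rfl⟩
    have hP0 : ∀ i x y, 0 ≤ P i x y := by
      intro i x y
      rw [hP]
      simp only
      split_ifs <;> norm_num
    have hX0 : ∀ x y, 0 ≤ X r x y := by
      intro x y
      rw [hX]
      simp only
      split_ifs <;> norm_num
    have hPsum : ∀ i, ∑ x, ∑ j ∈ J, P i x (Y601.SSE.flip j x) ≤ 2 * T * n2 := by
      intro i
      rw [← hcard, mul_comm, ← nsmul_eq_mul]
      apply sum_le_card_nsmul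
      intro x _
      by_cases hne : Q i x (A x) ≠ Q i0 x (A x)
      · have h1 := coincide (G := fun y => Q i y (A x)) (G' := fun y => Q i0 y (A x))
          (fun l => hsens i (A x) l x) (fun l => hsens i0 (A x) l x) hne
        have h2 : ∑ j ∈ J, P i x (Y601.SSE.flip j x) ≤ ((J.filter fun j =>
            Q i (Y601.SSE.flip j x) (A x) = Q i0 (Y601.SSE.flip j x) (A x)).card : ℝ) := by
          rw [card_filter]
          push_cast
          apply sum_le_sum
          intro j _
          rw [hP]
          simp only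
          by_cases h3 : Q i (Y601.SSE.flip j x) (A x) = Q i0 (Y601.SSE.flip j x) (A x)
          · rw [if_pos h3]
            split_ifs <;> norm_num
          · rw [if_neg h3, if_neg]
            exact fun h => h3 h.2.2
        have h3 : ((J.filter fun j =>
            Q i (Y601.SSE.flip j x) (A x) = Q i0 (Y601.SSE.flip j x) (A x)).card : ℝ) ≤
            2 * T := by exact_mod_cast h1
        exact h2.trans h3
      · have h2 : ∑ j ∈ J, P i x (Y601.SSE.flip j x) = 0 := by
          apply sum_eq_zero
          intro j _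
          rw [hP]
          simp only
          rw [if_neg]
          exact fun h => hne h.2.1
        rw [h2]
        positivity
    have hPsum' : ∀ i, ∑ x, ∑ j ∈ J, P i (Y601.SSE.flip j x) x ≤ 2 * T * n2 := by
      intro i
      rw [← sum_swap J (P i)]
      exact hPsum i
    have hpt : ∀ x y, (if Function.update (A y) i0 (bit Q i0 (th r) y (A y)) ≠
        Function.update (A x) i0 (bit Q i0 (th r) x (A x)) then (1 : ℝ) else 0) ≤
        (if A y ≠ A x then (1 : ℝ) else 0) + (∑ i, (P i x y + P i y x) + X r x y) := by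
      intro x y
      have hs0 : 0 ≤ ∑ i, (P i x y + P i y x) :=
        sum_nonneg fun i _ => add_nonneg (hP0 i x y) (hP0 i y x)
      have hX0' := hX0 x y
      by_cases hxy : A y = A x
      · rw [if_neg (not_not.2 hxy), zero_add]
        by_cases hb : bit Q i0 (th r) y (A x) = bit Q i0 (th r) x (A x)
        · rw [if_neg]
          · linarith
          · rw [not_not, hxy, hb]
        · have h1 := bit_ne hb
          have hle : (if Function.update (A y) i0 (bit Q i0 (th r) y (A y)) ≠
              Function.update (A x) i0 (bit Q i0 (th r) x (A x)) then (1 : ℝ) else 0) ≤ 1 := by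
            split_ifs <;> norm_num
          refine hle.trans ?_
          rcases h1 with ⟨i, _, h2, h3⟩ | ⟨i, _, h2, h3⟩ | h2
          · have h4 : P i x y = 1 := by
              rw [hP]
              simp only
              rw [if_pos ⟨hxy, h2, h3⟩]
            have h5 := single_le_sum (f := fun i => P i x y + P i y x)
              (fun i _ => add_nonneg (hP0 i x y) (hP0 i y x)) (mem_univ i)
            have h6 := hP0 i y x
            linarith
          · have h4 : P i y x = 1 := by
              rw [hP]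
              simp only
              rw [if_pos ⟨hxy.symm, by rw [hxy]; exact h3, by rw [hxy]; exact h2⟩]
            have h5 := single_le_sum (f := fun i => P i x y + P i y x)
              (fun i _ => add_nonneg (hP0 i x y) (hP0 i y x)) (mem_univ i)
            have h6 := hP0 i x y
            linarith
          · have h4 : X r x y = 1 := by
              rw [hX]
              simp only
              rw [if_pos ⟨hxy, h2⟩]
            linarith
      · rw [if_pos hxy]
        have hle : (if Function.update (A y) i0 (bit Q i0 (th r) y (A y)) ≠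
            Function.update (A x) i0 (bit Q i0 (th r) x (A x)) then (1 : ℝ) else 0) ≤ 1 := by
          split_ifs <;> norm_num
        linarith
    have h1 := sum_le_sum fun x (_ : x ∈ (univ : Finset (I → Bool))) =>
      sum_le_sum fun j (_ : j ∈ J) => hpt x (Y601.SSE.flip j x)
    refine h1.trans ?_
    have h2 : ∑ x, ∑ j ∈ J, ((if A (Y601.SSE.flip j x) ≠ A x then (1 : ℝ) else 0) +
        (∑ i, (P i x (Y601.SSE.flip j x) + P i (Y601.SSE.flip j x) x) +
          X r x (Y601.SSE.flip j x))) =
        ∑ x, ∑ j ∈ J, (if A (Y601.SSE.flip j x) ≠ A x then (1 : ℝ) else 0) +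
        (∑ i, (∑ x, ∑ j ∈ J, P i x (Y601.SSE.flip j x) +
          ∑ x, ∑ j ∈ J, P i (Y601.SSE.flip j x) x) +
          ∑ x, ∑ j ∈ J, X r x (Y601.SSE.flip j x)) := by
      simp only [sum_add_distrib]
      congr 3
      · rw [sum_comm (s := univ (α := Fin k))]
        refine sum_congr rfl fun x _ => ?_
        rw [sum_comm]
      · rw [sum_comm (s := univ (α := Fin k))]
        refine sum_congr rfl fun x _ => ?_
        rw [sum_comm]
    rw [h2]
    have h3 : ∑ i, (∑ x, ∑ j ∈ J, P i x (Y601.SSE.flip j x) +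
        ∑ x, ∑ j ∈ J, P i (Y601.SSE.flip j x) x) ≤ k * (4 * T * n2) := by
      have h4 := sum_le_card_nsmul (univ : Finset (Fin k)) (fun i =>
        ∑ x, ∑ j ∈ J, P i x (Y601.SSE.flip j x) + ∑ x, ∑ j ∈ J, P i (Y601.SSE.flip j x) x)
        (4 * T * n2) (by
          intro i _
          have := hPsum i
          have := hPsum' i
          linarith)
      rw [nsmul_eq_mul, card_univ, Fintype.card_fin] at h4
      exact h4
    rw [← hn2]
    have h5 : ((4 * k * T + 2 * T / w + 1) * n2 : ℝ) =
        k * (4 * T * n2) + (2 * T / w + 1) * n2 := by ring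
    rw [h5]
    linarith

theorem stages (hq : 1 ≤ q) {Q : Fin k → (I → Bool) → (Fin k → Bool) → Game U V q M}
    (hQ : ∀ i x a a', (∀ j, j < i → a j = a' j) → Q i x a = Q i x a') {ε δ : ℝ}
    (hw : 0 < 1 - ε - δ) (J : Finset I) {T : ℕ}
    (hsens : ∀ i a l x, (J.filter fun j => Q i (Y601.SSE.flip j x) a l ≠ Q i x a l).card ≤ T) :
    ∀ n, n ≤ k → ∃ A : (I → Bool) → Fin k → Bool, (∀ x, Good Q ε δ n x (A x)) ∧
      ∑ x, ∑ j ∈ J, (if A (Y601.SSE.flip j x) ≠ A x then (1 : ℝ) else 0) ≤
        n * ((4 * k * T + 2 * T / (1 - ε - δ) + 1) * 2 ^ Fintype.card I) := by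
  intro n
  induction n with
  | zero =>
    intro _
    refine ⟨fun _ _ => false, ?_, ?_⟩
    · intro x
      refine ⟨fun i hi => absurd hi (by omega), fun i hi => absurd hi (by omega),
        fun i i' hi => absurd hi (by omega)⟩
    · simp
  | succ n ih =>
    intro hn
    obtain ⟨A, hA, hs⟩ := ih (by omega)
    obtain ⟨A', hA', hs'⟩ := stage_step hq hQ hw J hsens ⟨n, by omega⟩ A hA
    refine ⟨A', hA', hs'.trans ?_⟩
    push_cast
    linarith

/-- the answers of a good vector come from an oracle -/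
theorem good_oracle {Q : Fin k → (I → Bool) → (Fin k → Bool) → Game U V q M} {ε δ : ℝ}
    {x : I → Bool} {a : Fin k → Bool} (h : Good Q ε δ k x a) (hyn : ∀ G : Game U V q M,
      Yes ε G → No δ G → False) :
    ∃ O : Game U V q M → Bool, (∀ G, Yes ε G → O G = true) ∧ (∀ G, No δ G → O G = false) ∧
      ∀ i, a i = O (Q i x a) := by
  obtain ⟨h1, h2, h3⟩ := h
  refine ⟨fun G => if ∃ i, Q i x a = G then decide (∃ i, Q i x a = G ∧ a i = true)
    else decide (Yes ε G), ?_, ?_, ?_⟩
  · intro G hG
    by_cases hex : ∃ i, Q i x a = G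
    · simp only [hex, if_true]
      rw [decide_eq_true_eq]
      obtain ⟨i, hi⟩ := hex
      exact ⟨i, hi, h1 i i.2 (by rw [hi]; exact hG)⟩
    · simp only [hex, if_false]
      rw [decide_eq_true_eq]
      exact hG
  · intro G hG
    by_cases hex : ∃ i, Q i x a = G
    · simp only [hex, if_true]
      rw [decide_eq_false_iff_not]
      rintro ⟨i, hi, hai⟩
      rw [h2 i i.2 (by rw [hi]; exact hG)] at hai
      exact absurd hai (by simp)
    · simp only [hex, if_false]
      rw [decide_eq_false_iff_not]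
      exact fun hy => hyn G hy hG
  · intro i
    have hex : ∃ i', Q i' x a = Q i x a := ⟨i, rfl⟩
    simp only [hex, if_true]
    cases hai : a i
    · symm
      rw [decide_eq_false_iff_not]
      rintro ⟨i', hi', hai'⟩
      rw [h3 i' i i'.2 i.2 hi', hai] at hai'
      exact absurd hai' (by simp)
    · symm
      rw [decide_eq_true_eq]
      exact ⟨i, rfl, hai⟩

end Pool.Agent.N587.UG
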